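import Pool.Agent.H10x.BP.Law

/-!
# Avoiding all events
-/

set_option autoImplicit false

namespace Pool.Agent.H10x.BP

open Finset

variable {K V : Type} [DecidableEq K] {l : K → Law V}

/-- the expectation of a product over keys -/
theorem EX_finset_prod (g : K → V → ℝ) : ∀ (C : List K) (D : K → V) (S : Finset K), C.Nodup →
    (∀ c ∈ S, c ∈ C) →
      EX l C (fun D' => ∏ c ∈ S, g c (D' c)) D = ∏ c ∈ S, (l c).E (g c)
  | [], D, S, _, h => by
    have : S = ∅ := by
      rw [eq_empty_iff_forall_notMem]
      intro c hc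
      exact absurd (h c hc) List.not_mem_nil
    subst this
    simp [EX]
  | c :: C, D, S, hn, h => by
    have hc : c ∉ C := (List.nodup_cons.1 hn).1
    have hn' := (List.nodup_cons.1 hn).2
    simp only [EX]
    by_cases hcS : c ∈ S
    · have h1 : ∀ v, EX l C (fun D' => ∏ c ∈ S, g c (D' c)) (Function.update D c v) =
          (∏ c ∈ S.erase c, (l c).E (g c)) * g c v := by
        intro v
        have ih := EX_finset_prod g C (Function.update D c v) (S.erase c) hn' fun c' hc' =>
          (List.mem_cons.1 (h c' (mem_of_mem_erase hc'))).resolve_left (ne_of_mem_erase hc')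
        rw [← ih, mul_comm, ← EX_mul]
        refine le_antisymm (EX_mono C _ fun D' _ h2 => ?_) (EX_mono C _ fun D' _ h2 => ?_)
        · rw [← mul_prod_erase S _ hcS, h2 c hc, Function.update_self]
        · rw [← mul_prod_erase S _ hcS, h2 c hc, Function.update_self]
      simp only [h1]
      rw [Law.E_mul, mul_comm]
      exact mul_prod_erase S (fun c => (l c).E (g c)) hcS
    · have h1 : ∀ v, EX l C (fun D' => ∏ c ∈ S, g c (D' c)) (Function.update D c v) =
          ∏ c ∈ S, (l c).E (g c) := fun v =>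
        EX_finset_prod g C _ S hn' fun c' hc' => by
          rcases List.mem_cons.1 (h c' hc') with h2 | h2
          · exact absurd (h2 ▸ hc') hcS
          · exact h2
      simp only [h1]
      exact (l c).E_const _

open Classical in
/-- **Finitely many events.** -/
theorem exists_avoid_finite {ι : Type} (ev : ι → (K → V) → Prop) (b : ι → ℝ) (C : ι → List K)
    (hC : ∀ i, (C i).Nodup)
    (hb : ∀ i D, EX l (C i) (fun D' => if ev i D' then (1 : ℝ) else 0) D ≤ b i)
    (s : Finset ι) (hsum : ∑ i ∈ s, b i < 1) (D : K → V) (hD : ∀ c, D c ∈ (l c).supp) :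
    ∃ D' : K → V, (∀ c, D' c ∈ (l c).supp) ∧ ∀ i ∈ s, ¬ ev i D' := by
  set U : Finset K := s.biUnion fun i => (C i).toFinset with hU
  have h1 : ∀ i ∈ s, EX l U.toList (fun D' => if ev i D' then (1 : ℝ) else 0) D ≤ b i := by
    intro i hi
    have hsub : (C i).toFinset ⊆ U := subset_biUnion_of_mem (fun i => (C i).toFinset) hi
    have hperm : U.toList.Perm ((U \ (C i).toFinset).toList ++ C i) := by
      rw [List.perm_ext_iff_of_nodup (nodup_toList U)]
      · intro c
        rw [mem_toList, List.mem_append, mem_toList, mem_sdiff, List.mem_toFinset]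
        constructor
        · intro hc
          by_cases h : c ∈ C i
          · exact Or.inr h
          · exact Or.inl ⟨hc, h⟩
        · rintro (h | h)
          · exact h.1
          · exact hsub (List.mem_toFinset.2 h)
      · rw [List.nodup_append]
        refine ⟨nodup_toList _, hC i, fun a ha c hc hac => ?_⟩
        subst hac
        rw [mem_toList, mem_sdiff, List.mem_toFinset] at ha
        exact ha.2 hc
    rw [EX_perm hperm _ _ (nodup_toList U), EX_append]
    exact EX_le _ _ fun D' _ _ => hb i D'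
  have h2 : EX l U.toList (fun D' => ∑ i ∈ s, if ev i D' then (1 : ℝ) else 0) D < 1 := by
    rw [EX_sum]
    exact lt_of_le_of_lt (sum_le_sum h1) hsum
  obtain ⟨D', h3, h4, h5⟩ := exists_of_EX_lt _ _ h2
  refine ⟨D', fun c => ?_, fun i hi hev => ?_⟩
  · by_cases hc : c ∈ U.toList
    · exact h3 c hc
    · rw [h4 c hc]
      exact hD c
  · have h6 : (1 : ℝ) ≤ ∑ i ∈ s, if ev i D' then (1 : ℝ) else 0 := by
      have h7 := single_le_sum (f := fun i => if ev i D' then (1 : ℝ) else 0)
        (fun i _ => by split_ifs <;> norm_num) hi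
      simp only [if_pos hev] at h7
      exact h7
    linarith

open Classical in
/-- **All events can be avoided.** -/
theorem exists_avoid {ι : Type} (ev : ι → (K → V) → Prop) (b : ι → ℝ) (U : ι → Finset K)
    (hloc : ∀ i (D D' : K → V), (∀ c ∈ U i, D c = D' c) → (ev i D ↔ ev i D')) (C : ι → List K)
    (hC : ∀ i, (C i).Nodup)
    (hb : ∀ i D, EX l (C i) (fun D' => if ev i D' then (1 : ℝ) else 0) D ≤ b i)
    (hsum : ∀ s : Finset ι, ∑ i ∈ s, b i < 1) :
    ∃ D : K → V, (∀ c, D c ∈ (l c).supp) ∧ ∀ i, ¬ ev i D := by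
  choose D₀ hD₀ using fun c => (l c).supp_nonempty
  let top : ∀ c, TopologicalSpace ↥(l c).supp := fun _ => ⊥
  have dis : ∀ c, DiscreteTopology ↥(l c).supp := fun _ => ⟨rfl⟩
  have fin : ∀ c, Finite ↥(l c).supp := fun c => (l c).supp_finite.to_subtype
  have cpt : ∀ c, CompactSpace ↥(l c).supp := fun c => inferInstance
  set Z : ι → Set (∀ c, ↥(l c).supp) := fun i => {κ | ¬ ev i fun c => (κ c : V)} with hZ
  have hcl : ∀ i, IsClosed (Z i) := by
    intro i
    rw [← isOpen_compl_iff, isOpen_iff_forall_mem_open]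
    intro κ hκ
    refine ⟨{κ' | ∀ c ∈ U i, κ' c = κ c}, ?_, ?_, fun c _ => rfl⟩
    · intro κ' hκ' hcon
      apply hcon
      have hκ2 : ev i fun c => (κ c : V) := by
        by_contra h
        exact hκ h
      exact (hloc i _ _ fun c hc => congrArg Subtype.val (hκ' c hc)).2 hκ2
    · have : {κ' : ∀ c, ↥(l c).supp | ∀ c ∈ U i, κ' c = κ c} =
          ⋂ c ∈ U i, (fun κ' : ∀ c, ↥(l c).supp => κ' c) ⁻¹' {κ c} := by
        ext κ'
        simp
      rw [this]
      exact isOpen_biInter_finset fun c _ => (isOpen_discrete _).preimage (continuous_apply c)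
  have hne := isCompact_univ.inter_iInter_nonempty Z hcl fun s => by
    obtain ⟨D', h1, h2⟩ := exists_avoid_finite ev b C hC hb s (hsum s) D₀ hD₀
    refine ⟨fun c => ⟨D' c, h1 c⟩, Set.mem_univ _, ?_⟩
    rw [Set.mem_iInter₂]
    intro i hi
    exact h2 i hi
  obtain ⟨κ, _, hκ⟩ := hne
  rw [Set.mem_iInter] at hκ
  exact ⟨fun c => κ c, fun c => (κ c).2, hκ⟩

end Pool.Agent.H10x.BP
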