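import Pool.Agent.Y626.WC.Total
import Pool.Agent.H620R2.GaugeR.R2

/-!
# Algorithms which are uniform in the oracle, and the tester
-/

set_option autoImplicit false

namespace Pool.Agent.H10x.BP

open Pool.Agent.NPC Pool.Agent.H620R2.Gauge Finset

/-- computed by one algorithm for all oracles -/
def UFP (V : Oracle → List Bool → List Bool) : Prop :=
  ∃ M : Alg, ∀ (A : Oracle) (x : List Bool), M.out A x = some (V A x)

theorem UFP.of_poly {F : List Bool → List Bool} (hF : Poly F) : UFP fun _ => F := by
  have hQ : Poly (fun _ : List Bool => ([] : List (List Bool))) := NPC.Poly.const []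
  have hH : Poly (fun p : List Bool × List Bool => F p.1) := Poly.comp hF (Poly.fst Poly.id)
  refine ⟨A2.ttAlg hQ hH 1, fun A x => ?_⟩
  have h3 := A2.tt_run hQ hH 1 A x ((1 : Polynomial ℕ).eval x.length) 0 (Nat.zero_le _) (by simp)
  exact h3

/-- one algorithm after the other -/
theorem UFP.seq {F G : Oracle → List Bool → List Bool} (hF : UFP F) (hG : UFP G)
    {φ : List Bool × List Bool → List Bool} {ψ : List Bool × List Bool × List Bool → List Bool}
    (hφ : Poly φ) (hψ : Poly ψ) :
    UFP (fun A x => ψ (x, F A x, G A (φ (x, F A x)))) := by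
  obtain ⟨M, hM⟩ := hF
  obtain ⟨N, hN⟩ := hG
  obtain ⟨b, hb⟩ := A2.out_bound M
  obtain ⟨q, hq⟩ := hφ.sz_le
  set r : Polynomial ℕ := q.comp (Polynomial.C 4 * Polynomial.X + Polynomial.C 4 * b +
    Polynomial.C 3) with hr
  refine ⟨A2.seqAlg M N hφ hψ (M.p + N.p.comp r), fun A x => ?_⟩
  have h1 := hM A x
  have h2 := hN A (φ (x, F A x))
  have h3 : (φ (x, F A x)).length ≤ r.eval x.length := by
    have h4 := length_lt_sz (φ (x, F A x))
    have h5 := hq (x, F A x)
    have h6 := hb A x (F A x) h1
    have h7 := sz_listBool_le x
    have h8 := sz_listBool_le (F A x)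
    refine h4.le.trans (h5.trans ?_)
    rw [hr, Polynomial.eval_comp]
    apply eval_mono
    simp only [sz_pair, Polynomial.eval_add, Polynomial.eval_mul, Polynomial.eval_C,
      Polynomial.eval_X]
    omega
  refine A2.seq_run1 M N hφ hψ (M.p + N.p.comp r) A x (F A x) _ _ h2 _ [] rfl h1 _ ?_
  have h9 := eval_mono N.p h3
  change (M.p + N.p.comp r).eval x.length ≥ _
  rw [Polynomial.eval_add, Polynomial.eval_comp]
  omega

/-- a loop -/
theorem UFP.loop {S : Oracle → List Bool → List Bool} (hS : UFP S)
    {g : List Bool → List Bool} (hg : Poly g) (T b : Polynomial ℕ)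
    (hb : ∀ (A : Oracle) (x : List Bool), ∀ i ≤ T.eval x.length,
      ((S A)^[i] (g x)).length ≤ b.eval x.length) :
    UFP (fun A x => (S A)^[T.eval x.length] (g x)) := by
  obtain ⟨M, hM⟩ := hS
  refine ⟨R1.loopAlg M hg T b (T * M.p.comp b + 1), fun A x => ?_⟩
  have key : ∀ (j i : ℕ), i + j = T.eval x.length → ∀ a : List Bool,
      R1.st M.D g b x a = (List.replicate i true, (S A)^[i] (g x), []) →
      ∀ m ≥ j * M.p.eval (b.eval x.length) + 1,
        (R1.loopAlg M hg T b (T * M.p.comp b + 1)).run A x m a =
          some ((S A)^[T.eval x.length] (g x)) := by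
    intro j
    induction j with
    | zero =>
      intro i hi a ha m hm
      obtain ⟨m, rfl⟩ : ∃ m', m = m' + 1 := ⟨m - 1, by omega⟩
      rw [add_zero] at hi
      rw [A2.run_succ, R1.loopAlg_D, ha]
      have hact : R1.act M.D T x (List.replicate i true, (S A)^[i] (g x), []) =
          true :: (S A)^[i] (g x) := by
        unfold R1.act
        exact if_pos (by simp [hi])
      rw [hact, if_neg (by simp), List.tail_cons, hi]
    | succ j ih =>
      intro i hi a ha m hm
      have h1 := hM A ((S A)^[i] (g x))
      have h2 := hb A x i (by omega)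
      have h3 := hb A x (i + 1) (by omega)
      rw [Function.iterate_succ_apply'] at h3
      have h4 := eval_mono M.p h2
      refine R1.one_run M hg T b (T * M.p.comp b + 1) A x (List.replicate i true) ((S A)^[i] (g x))
        (S A ((S A)^[i] (g x))) _ (j * M.p.eval (b.eval x.length) + 1) ?_ ?_ _ [] a ha h1 m ?_
      · rw [List.length_replicate]
        omega
      · intro a' m' hm' ha'
        refine ih (i + 1) (by omega) a' ?_ m' hm'
        rw [ha', List.take_of_length_le h3, Function.iterate_succ_apply', List.replicate_succ]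
      · have : (j + 1) * M.p.eval (b.eval x.length) =
            j * M.p.eval (b.eval x.length) + M.p.eval (b.eval x.length) := by ring
        omega
  refine key (T.eval x.length) 0 (by omega) [] rfl _ ?_
  change (T * M.p.comp b + 1).eval x.length ≥ _
  rw [Polynomial.eval_add, Polynomial.eval_mul, Polynomial.eval_comp, Polynomial.eval_one]

theorem UFP.comp {F G : Oracle → List Bool → List Bool} (hG : UFP G) (hF : UFP F) :
    UFP (fun A x => G A (F A x)) :=
  UFP.seq (φ := fun p => p.2) (ψ := fun p => p.2.2) hF hG (Poly.snd Poly.id)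
    (Poly.snd (Poly.snd Poly.id))

/-- polynomially many runs -/
theorem UFP.votes {V : Oracle → List Bool → List Bool} (hV : UFP V) (T : Polynomial ℕ)
    {W : ℕ × List Bool → List Bool} (hW : Poly W)
    {H : List Bool × List Bool → List Bool} (hH : Poly H) :
    UFP (fun A x => H (x, (List.range (T.eval x.length)).map
      (fun i => decide (V A (W (i, x)) = [true])))) := by
  have h1 : Poly (fun s => (R2.dcd s).1) := Poly.fst R2.poly_dcd
  have h2 : Poly (fun s => (R2.dcd s).2.1) := Poly.fst (Poly.snd R2.poly_dcd)
  have h3 : Poly (fun s => (R2.dcd s).2.2) := Poly.snd (Poly.snd R2.poly_dcd)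
  have hF : UFP (fun _ s => s) := UFP.of_poly Poly.id
  have hφ : Poly (fun p : List Bool × List Bool =>
      W ((R2.dcd p.1).2.1.length, (R2.dcd p.1).1)) :=
    hW.comp (Poly.pair (Poly.length (h2.comp (Poly.fst Poly.id))) (h1.comp (Poly.fst Poly.id)))
  have hψ : Poly (fun p : List Bool × List Bool × List Bool =>
      bits (((R2.dcd p.1).1, (R2.dcd p.1).2.1 ++ [()],
        (R2.dcd p.1).2.2 ++ [decide (p.2.2 = [true])]) : R2.St)) :=
    R2.poly_bits (Poly.pair (h1.comp (Poly.fst Poly.id)) (Poly.pair
      (Poly.append (h2.comp (Poly.fst Poly.id)) (NPC.Poly.const _))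
      (Poly.append (h3.comp (Poly.fst Poly.id))
        (Poly.cons (Poly.decide_eq (Poly.snd (Poly.snd Poly.id)) (NPC.Poly.const _))
          (NPC.Poly.const [])))))
  have hS := UFP.seq hF hV hφ hψ
  set S : Oracle → List Bool → List Bool := fun A s => bits (((R2.dcd s).1,
    (R2.dcd s).2.1 ++ [()], (R2.dcd s).2.2 ++ [decide (V A (W ((R2.dcd s).2.1.length,
      (R2.dcd s).1)) = [true])]) : R2.St) with hSd
  have hit : ∀ (A : Oracle) (x : List Bool) (i : ℕ), (S A)^[i] (bits ((x, [], []) : R2.St)) =
      bits ((x, List.replicate i (), (List.range i).map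
        (fun i => decide (V A (W (i, x)) = [true]))) : R2.St) := by
    intro A x i
    induction i with
    | zero => rfl
    | succ i ih =>
      rw [Function.iterate_succ_apply', ih, hSd]
      simp only [R2.dcd_bits, List.length_replicate]
      rw [List.range_succ, List.map_append, List.replicate_succ']
      rfl
  have hL := UFP.loop (S := S) hS (g := fun x => bits ((x, [], []) : R2.St))
    (R2.poly_bits (Poly.pair Poly.id (NPC.Poly.const _))) T
    (Polynomial.C 4 * Polynomial.X + Polynomial.C 6 * T + Polynomial.C 5) (by
      intro A x i hi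
      rw [hit, bits_length, sz_pair, sz_pair, R2.sz_units, List.length_replicate]
      have e1 := sz_listBool_le x
      have e2 := sz_listBool_le ((List.range i).map
        (fun i => decide (V A (W (i, x)) = [true])))
      rw [List.length_map, List.length_range] at e2
      simp only [Polynomial.eval_add, Polynomial.eval_mul, Polynomial.eval_C, Polynomial.eval_X]
      omega)
  have hR := UFP.comp (UFP.of_poly (F := fun s => H ((R2.dcd s).1, (R2.dcd s).2.2))
    (hH.comp (Poly.pair h1 h3))) hL
  refine (congrArg UFP (funext fun A => funext fun x => ?_)).mp hR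
  simp only [hit, R2.dcd_bits]

/-- the data of a test: a threshold and a list of strings with bits -/
abbrev Tst : Type := List Unit × List (List Bool × Bool)

/-- decoding of a test -/
def dcT (y : List Bool) : Tst := (unbits Tst y).getD ([], [])

theorem dcT_bits (t : Tst) : dcT (bits t) = t := by
  unfold dcT
  rw [unbits_bits]
  rfl

theorem poly_dcT : Poly dcT :=
  (Poly.optCases (o := unbits Tst) (g := fun _ => (([], []) : Tst)) (h := fun _ b => b)
    poly_unbits (NPC.Poly.const _) (Poly.snd Poly.id)).congr fun s => by
      unfold dcT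
      cases unbits Tst s <;> rfl

/-- the number of the strings in the list on which the algorithm gives the bit -/
def hits (M : Alg) (A : Oracle) (l : List (List Bool × Bool)) : ℕ :=
  (l.filter fun p => decide (M.out A p.1 = some [true]) == p.2).length

theorem length_le_bits (t : Tst) : t.2.length ≤ (bits t).length := by
  have h1 := length_lt_sz t.2
  rw [bits_length, sz_pair]
  omega

/-- **The tester.** -/
theorem exists_tester (M : Alg) : ∃ M' : Alg, ∀ (A : Oracle) (t : Tst),
    M'.out A (bits t) = some [true] ↔ t.1.length ≤ hits M A t.2 := by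
  obtain ⟨M₀, hM₀⟩ := Y626.WC.exists_total M
  have hV : UFP (fun A x => (M.out A x).getD []) := ⟨M₀, hM₀⟩
  have hlist : Poly (fun y => (dcT y).2) := Poly.snd poly_dcT
  have hW : Poly (fun p : ℕ × List Bool => (((dcT p.2).2).getD p.1 ([], false)).1) :=
    Poly.fst (Poly.getD (hlist.comp (Poly.snd Poly.id)) (Poly.fst Poly.id) (NPC.Poly.const _))
  have hH : Poly (fun p : List Bool × List Bool => [decide ((dcT p.1).1.length ≤
      ((((dcT p.1).2).zip p.2).filter fun z => z.2 == z.1.2).length)]) := by
    refine Poly.cons (Poly.decide_le (Poly.length ((Poly.fst poly_dcT).comp (Poly.fst Poly.id)))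
      (Poly.length (Poly.filter (Poly.zip (hlist.comp (Poly.fst Poly.id)) (Poly.snd Poly.id))
        ?_))) (NPC.Poly.const [])
    exact (Poly.decide_eq (Poly.snd (Poly.snd Poly.id))
      (Poly.snd (Poly.fst (Poly.snd Poly.id)))).congr fun z => by
        rw [Bool.beq_eq_decide_eq]
  obtain ⟨M', hM'⟩ := hV.votes Polynomial.X hW hH
  refine ⟨M', fun A t => ?_⟩
  rw [hM' A (bits t)]
  simp only [Polynomial.eval_X, dcT_bits, Option.some.injEq, List.cons.injEq, and_true,
    decide_eq_true_eq]
  have key : ∀ (l : List (List Bool × Bool)) (m : ℕ), l.length ≤ m →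
      ((l.zip ((List.range m).map fun i =>
        decide ((M.out A ((l.getD i ([], false)).1)).getD [] = [true]))).filter
          fun z => z.2 == z.1.2).length = hits M A l := by
    intro l
    induction l with
    | nil => intro m _; simp [hits]
    | cons a l ih =>
      intro m hm
      obtain ⟨m, rfl⟩ : ∃ m', m = m' + 1 := ⟨m - 1, by simp at hm; omega⟩
      have h1 := ih m (by simpa using hm)
      rw [List.range_succ_eq_map, List.map_cons, List.map_map, List.zip_cons_cons]
      unfold hits at h1 ⊢
      rw [List.filter_cons, List.filter_cons]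
      have h2 : decide ((M.out A (((a :: l).getD 0 ([], false)).1)).getD [] = [true]) =
          decide (M.out A a.1 = some [true]) := by
        rw [decide_eq_decide]
        simp only [List.getD_cons_zero]
        cases M.out A a.1 <;> simp
      have h3 : ((fun i => decide ((M.out A (((a :: l).getD i ([], false)).1)).getD [] = [true])) ∘
          Nat.succ) = fun i => decide ((M.out A ((l.getD i ([], false)).1)).getD [] = [true]) := by
        funext i
        simp only [Function.comp_apply, Nat.succ_eq_add_one, List.getD_cons_succ]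
      rw [h3]
      simp only
      rw [h2]
      split_ifs
      · rw [List.length_cons, List.length_cons, h1]
      · rw [h1]
  rw [key t.2 _ (length_le_bits t)]

end Pool.Agent.H10x.BP
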