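import Pool.Agent.H10x.BP.Ora
import Pool.Agent.H10x.BP.UF
import Pool.Agent.H10x.BP.Cpt

/-!
# The probability that an algorithm with advice agrees with the labels too often
-/

set_option autoImplicit false
set_option linter.unusedSectionVars false

namespace Pool.Agent.H10x.BP

open Pool.Agent.NPC Pool.Agent.H622R2 Pool.Agent.H620R2.Gauge Pool.Agent.H622R2.Exp
  Pool.Agent.H9x.RT Finset H568R2 Pool.Agent.H676

/-- the contents of the blocks of a level -/
abbrev Zs (s : ℕ) : Type := (Fin (ll s) → Bool) ⊕ (Fin (ll s) → Bool) → Bool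

/-- the two distributions -/
structure PQ (P Q : ∀ s, Zs s → ℝ) : Prop where
  P0 : ∀ s a, 0 ≤ P s a
  P1 : ∀ s, ∑ a, P s a = 1
  PG : ∀ s a, P s a ≠ 0 → Yes s (enc (ll s) a)
  Q0 : ∀ s a, 0 ≤ Q s a
  Q1 : ∀ s, ∑ a, Q s a = 1
  QG : ∀ s a, Q s a ≠ 0 → No s (enc (ll s) a)
  cl : ∀ s (h : Zs s → Bool) (L : ℝ), 1 ≤ L → (∀ ρ, lv 2 (br (rs h ρ)) 0 ≤ L) →
    |∑ a, P s a * br h a - ∑ a, Q s a * br h a| ≤ del (ll s) L

theorem exists_pq : ∃ P Q : ∀ s, Zs s → ℝ, PQ P Q := by
  choose P Q hP0 hP1 hPG hQ0 hQ1 hQG hPQ using fun s : ℕ =>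
    exists_dist (l := ll s) (by unfold ll; omega)
  refine ⟨P, Q, hP0, hP1, fun s a ha => ?_, hQ0, hQ1, fun s a ha => ?_, hPQ⟩
  · unfold Yes
    rw [FoC_enc]
    exact hPG s a ha
  · unfold No
    rw [FoC_enc]
    exact hQG s a ha

variable {P Q : ∀ s, Zs s → ℝ}

/-- the law of label and content -/
noncomputable def law1 (hPQ : PQ P Q) (x : List Bool) : Law (Bool × (List Bool → Bool)) where
  Ω := Bool × Zs x.length
  fin := inferInstance
  w := fun p => 1 / 2 * (if p.1 then P x.length p.2 else Q x.length p.2)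
  val := fun p => (p.1, enc (ll x.length) p.2)
  nonneg := fun p => by
    have h1 := hPQ.P0 x.length p.2
    have h2 := hPQ.Q0 x.length p.2
    split_ifs <;> positivity
  sum_eq := by
    rw [Fintype.sum_prod_type, Fintype.sum_bool]
    simp only [if_true, Bool.false_eq_true, if_false, ← mul_sum, hPQ.P1, hPQ.Q1]
    norm_num

/-- the law of a label and an independent content -/
noncomputable def law2 (hPQ : PQ P Q) (x : List Bool) : Law (Bool × (List Bool → Bool)) where
  Ω := Bool × Zs x.length
  fin := inferInstance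
  w := fun p => 1 / 2 * Q x.length p.2
  val := fun p => (p.1, enc (ll x.length) p.2)
  nonneg := fun p => by
    have h2 := hPQ.Q0 x.length p.2
    positivity
  sum_eq := by
    rw [Fintype.sum_prod_type, Fintype.sum_bool]
    simp only [← mul_sum, hPQ.Q1]
    norm_num

/-- the law of a content -/
noncomputable def lawW (hPQ : PQ P Q) (x : List Bool) : Law (List Bool → Bool) where
  Ω := Zs x.length
  fin := inferInstance
  w := Q x.length
  val := enc (ll x.length)
  nonneg := hPQ.Q0 _
  sum_eq := hPQ.Q1 _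

/-- a fair coin -/
noncomputable def coin : Law Bool where
  Ω := Bool
  fin := inferInstance
  w := fun _ => 1 / 2
  val := id
  nonneg := fun _ => by norm_num
  sum_eq := by simp

theorem coin_E (φ : Bool → ℝ) : coin.E φ = (φ true + φ false) / 2 := by
  show ∑ ω : Bool, 1 / 2 * φ ω = _
  rw [Fintype.sum_bool]
  ring

theorem law2_E (hPQ : PQ P Q) (x : List Bool) (φ : Bool × (List Bool → Bool) → ℝ) :
    (law2 hPQ x).E φ = (lawW hPQ x).E fun w => coin.E fun b => φ (b, w) := by
  simp only [coin_E]
  show ∑ p : Bool × Zs x.length, 1 / 2 * Q x.length p.2 * φ (p.1, enc (ll x.length) p.2) =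
    ∑ z : Zs x.length, Q x.length z * ((φ (true, enc (ll x.length) z) +
      φ (false, enc (ll x.length) z)) / 2)
  rw [Fintype.sum_prod_type, Fintype.sum_bool, ← sum_add_distrib]
  exact sum_congr rfl fun z _ => by ring

theorem law1_E (hPQ : PQ P Q) (x : List Bool) (φ : Bool × (List Bool → Bool) → ℝ) :
    (law1 hPQ x).E φ - (law2 hPQ x).E φ =
      1 / 2 * (∑ z, P x.length z * φ (true, enc (ll x.length) z) -
        ∑ z, Q x.length z * φ (true, enc (ll x.length) z)) := by
  show ∑ p : Bool × Zs x.length, 1 / 2 * (if p.1 then P x.length p.2 else Q x.length p.2) *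
    φ (p.1, enc (ll x.length) p.2) - ∑ p : Bool × Zs x.length, 1 / 2 * Q x.length p.2 *
    φ (p.1, enc (ll x.length) p.2) = _
  rw [Fintype.sum_prod_type, Fintype.sum_bool, Fintype.sum_prod_type, Fintype.sum_bool]
  simp only [if_true, Bool.false_eq_true, if_false]
  rw [add_sub_add_right_eq_sub, mul_sub, mul_sum, mul_sum]
  congr 1
  · exact sum_congr rfl fun z _ => by ring
  · exact sum_congr rfl fun z _ => by ring

theorem law1_supp (hPQ : PQ P Q) {x : List Bool} {v : Bool × (List Bool → Bool)}
    (hv : v ∈ (law1 hPQ x).supp) :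
    (Yes x.length v.2 ↔ v.1 = true) ∧ (Yes x.length v.2 ∨ No x.length v.2) := by
  obtain ⟨p, hp, rfl⟩ := hv
  obtain ⟨b, z⟩ := p
  show (Yes x.length (enc (ll x.length) z) ↔ b = true) ∧
    (Yes x.length (enc (ll x.length) z) ∨ No x.length (enc (ll x.length) z))
  have hp' : 1 / 2 * (if b then P x.length z else Q x.length z) ≠ 0 := hp
  cases b with
  | true =>
    have h1 : Yes x.length (enc (ll x.length) z) := hPQ.PG _ _ fun h => by
      apply hp'
      rw [if_pos rfl, h, mul_zero]
    exact ⟨iff_of_true h1 rfl, Or.inl h1⟩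
  | false =>
    have h1 : No x.length (enc (ll x.length) z) := hPQ.QG _ _ fun h => by
      apply hp'
      rw [if_neg (by simp), h, mul_zero]
    exact ⟨iff_of_false (not_yes h1) (by simp), Or.inr h1⟩

/-- the strings of length `k` -/
noncomputable def vs (k : ℕ) : List (List Bool) := (univ : Finset (Fin k → Bool)).toList.map List.ofFn

theorem length_vs (k : ℕ) : (vs k).length = 2 ^ k := by
  unfold vs
  simp

theorem mem_vs {k : ℕ} {v : List Bool} : v ∈ vs k ↔ v.length = k := by
  unfold vs
  simp only [List.mem_map, mem_toList, mem_univ, true_and]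
  constructor
  · rintro ⟨f, rfl⟩
    simp
  · rintro rfl
    exact ⟨v.get, List.ofFn_get v⟩

theorem nodup_vs (k : ℕ) : (vs k).Nodup :=
  (nodup_toList _).map List.ofFn_injective

/-- the list of a test -/
noncomputable def tl (τ : ℕ) (β : List Bool → Bool) (w u : List Bool) : List (List Bool × Bool) :=
  (vs τ).map fun v => (pairBits w (u ++ v), β (u ++ v))

/-- the event that the algorithm with some advice agrees with the labels too often on some part -/
def Evt (M : Alg) (m τ q thr : ℕ) (β : List Bool → Bool) (A : Oracle) : Prop :=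
  ∃ w u : List Bool, w.length ≤ q ∧ u.length = m ∧ thr ≤ hits M A (tl τ β w u)

/-- the inputs of the tester -/
def YY (m τ q thr : ℕ) (β : List Bool → Bool) : Set (List Bool) :=
  {y | ∃ w u : List Bool, w.length ≤ q ∧ u.length = m ∧
    y = bits ((List.replicate thr (), tl τ β w u) : Tst)}

theorem evt_iff {M M' : Alg} (hM : ∀ (A : Oracle) (t : Tst),
    M'.out A (bits t) = some [true] ↔ t.1.length ≤ hits M A t.2) (m τ q thr : ℕ)
    (β : List Bool → Bool) (A : Oracle) :
    Evt M m τ q thr β A ↔ ∃ y ∈ YY m τ q thr β, M'.out A y = some [true] := by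
  constructor
  · rintro ⟨w, u, h1, h2, h3⟩
    refine ⟨_, ⟨w, u, h1, h2, rfl⟩, ?_⟩
    rw [hM]
    simpa using h3
  · rintro ⟨_, ⟨w, u, h1, h2, rfl⟩, h3⟩
    rw [hM] at h3
    exact ⟨w, u, h1, h2, by simpa using h3⟩

theorem evt_congr {M : Alg} {m τ q thr : ℕ} {β β' : List Bool → Bool} {A : Oracle}
    (h : ∀ x : List Bool, x.length = m + τ → β x = β' x) :
    Evt M m τ q thr β A ↔ Evt M m τ q thr β' A := by
  have key : ∀ w u : List Bool, u.length = m → tl τ β w u = tl τ β' w u := by
    intro w u hu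
    unfold tl
    refine List.map_congr_left fun v hv => ?_
    rw [h (u ++ v) (by rw [List.length_append, hu, mem_vs.1 hv])]
  unfold Evt
  constructor
  · rintro ⟨w, u, h1, h2, h3⟩
    exact ⟨w, u, h1, h2, key w u h2 ▸ h3⟩
  · rintro ⟨w, u, h1, h2, h3⟩
    exact ⟨w, u, h1, h2, (key w u h2).symm ▸ h3⟩

/-! ### The second level -/

variable {N : ℕ → Polynomial ℕ} {h : ℕ → Alg × Polynomial ℕ}

theorem lv_evt (hc : KN h N) (O : Oracle) (fr : Con) (x₀ : List Bool) {T J : ℕ}
    {Y : Set (List Bool)} {M' : Alg} (hY : ∀ y ∈ Y, M'.p.eval y.length ≤ T)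
    (hcut : ∀ y ∈ Y, ∀ A : Oracle, M'.out (CC.cut T A) y = M'.out A y) (hT1 : 1 ≤ T)
    (hsT : x₀.length ≤ T) (hJ : T ≤ x₀.length ^ 2 ^ J) {f : Zs x₀.length → Bool}
    (hf : ∀ z, f z = true ↔ ∃ y ∈ Y,
      M'.out (orc N h O (Function.update fr x₀ (enc (ll x₀.length) z))) y = some [true])
    (ρ₀ : Restr ((Fin (ll x₀.length) → Bool) ⊕ (Fin (ll x₀.length) → Bool))) :
    lv 2 (br (rs f ρ₀)) 0 ≤ (LL J T : ℝ) := by
  have h1 := (adm hc O fr x₀ T).lv_le (k := H9x.RT.kk J T) (J := J) (by unfold H9x.RT.kk; omega) hT1 hJ ?_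
    (Y := Y) (M := M') hY (f := f) (by
      intro z
      rw [hf z]
      exact exists_congr fun y => and_congr_right fun hy => by rw [hcut y hy]) ρ₀
  · refine h1.trans (le_of_eq ?_)
    unfold LL
    push_cast
    ring
  · have hcard : Fintype.card ((Fin (ll x₀.length) → Bool) ⊕ (Fin (ll x₀.length) → Bool)) =
        2 ^ (ll x₀.length + 1) := by
      rw [Fintype.card_sum]
      simp only [Fintype.card_fun, Fintype.card_bool, Fintype.card_fin]
      rw [pow_succ]
      ring
    rw [hcard]
    have h2 : J + 1 ≤ 2 ^ J := Nat.lt_two_pow_self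
    calc (J + 1) * 2 ^ (T + 1) * (2 ^ (ll x₀.length + 1)) ^ 2 ≤ 2 ^ J * 2 ^ (T + 1) *
        (2 ^ (ll x₀.length + 1)) ^ 2 := Nat.mul_le_mul_right _ (Nat.mul_le_mul_right _ h2)
      _ = 2 ^ (J + (T + 1) + (ll x₀.length + 1) * 2) := by rw [← pow_mul, ← pow_add, ← pow_add]
      _ ≤ 2 ^ (H9x.RT.kk J T + 1) := by
        refine Nat.pow_le_pow_right (by norm_num) ?_
        unfold H9x.RT.kk ll
        omega

/-! ### Independent labels -/

/-- the exponential of the number of the hits -/
theorem exp_hits (M : Alg) (A : Oracle) (lam : ℝ) : ∀ l : List (List Bool × Bool),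
    Real.exp (lam * (2 * hits M A l - l.length)) = (l.map fun p =>
      Real.exp (lam * if (decide (M.out A p.1 = some [true]) == p.2) = true then 1 else -1)).prod
  | [] => by simp [hits]
  | p :: l => by
    rw [List.map_cons, List.prod_cons, ← exp_hits M A lam l, ← Real.exp_add]
    congr 1
    unfold hits
    rw [List.filter_cons]
    split_ifs
    · rw [List.length_cons, List.length_cons]
      push_cast
      ring
    · rw [List.length_cons]
      push_cast
      ring

/-- one part and one advice -/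
theorem one_part (M : Alg) (A : Oracle) (τ thr : ℕ) (w u : List Bool) {C : List (List Bool)}
    (hC : C.Nodup) (hC' : ∀ x : List Bool, x.length = u.length + τ → x ∈ C)
    (β : List Bool → Bool) {lam : ℝ} (hl : 0 ≤ lam) :
    EX (fun _ => coin) C (fun β' => if thr ≤ hits M A (tl τ β' w u) then (1 : ℝ) else 0) β ≤
      Real.exp (lam ^ 2 / 2 * 2 ^ τ - lam * (2 * thr - 2 ^ τ)) := by
  set g : List Bool → Bool → ℝ := fun x b => Real.exp (lam *
    if (decide (M.out A (pairBits w x) = some [true]) == b) = true then 1 else -1) with hg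
  set S : Finset (List Bool) := (univ : Finset (Fin τ → Bool)).image fun v => u ++ List.ofFn v
    with hS
  have hinj : Function.Injective fun v : Fin τ → Bool => u ++ List.ofFn v := fun v v' hv =>
    List.ofFn_injective (List.append_cancel_left hv)
  have hlen : ∀ β' : List Bool → Bool, (tl τ β' w u).length = 2 ^ τ := fun β' => by
    unfold tl
    rw [List.length_map, length_vs]
  have h1 : ∀ β' : List Bool → Bool, Real.exp (lam * (2 * hits M A (tl τ β' w u) - 2 ^ τ)) =
      ∏ x ∈ S, g x (β' x) := by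
    intro β'
    have h2 := exp_hits M A lam (tl τ β' w u)
    rw [hlen] at h2
    push_cast at h2
    rw [h2, hS, prod_image fun a _ b _ hab => hinj hab]
    unfold tl vs
    rw [List.map_map, List.map_map, ← prod_map_toList]
    rfl
  have hE : ∀ x, coin.E (g x) = Real.cosh lam := by
    intro x
    rw [coin_E, hg, Real.cosh_eq]
    simp only
    cases decide (M.out A (pairBits w x) = some [true])
    · simp
      ring
    · simp
  have h3 := EX_finset_prod (l := fun _ => coin) g C β S hC fun x hx => by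
    obtain ⟨v, _, rfl⟩ := mem_image.1 hx
    exact hC' _ (by simp)
  simp only [hE, prod_const] at h3
  have hcard : S.card = 2 ^ τ := by
    rw [hS, card_image_of_injective _ hinj]
    simp
  rw [hcard] at h3
  have h4 : EX (fun _ => coin) C (fun β' => if thr ≤ hits M A (tl τ β' w u) then (1 : ℝ) else 0) β ≤
      EX (fun _ => coin) C (fun β' => Real.exp (-(lam * (2 * thr - 2 ^ τ))) *
        ∏ x ∈ S, g x (β' x)) β := by
    refine EX_mono C β fun β' _ _ => ?_
    rw [← h1, ← Real.exp_add]
    split_ifs with h5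
    · rw [Real.one_le_exp_iff]
      have h6 : (thr : ℝ) ≤ hits M A (tl τ β' w u) := by exact_mod_cast h5
      nlinarith
    · exact (Real.exp_pos _).le
  refine h4.trans ?_
  rw [EX_mul, h3]
  have h5 : Real.cosh lam ^ 2 ^ τ ≤ Real.exp (lam ^ 2 / 2 * 2 ^ τ) := by
    calc Real.cosh lam ^ 2 ^ τ ≤ Real.exp (lam ^ 2 / 2) ^ 2 ^ τ :=
          pow_le_pow_left₀ (Real.cosh_pos _).le (Real.cosh_le_exp_half_sq _) _
      _ = Real.exp (lam ^ 2 / 2 * 2 ^ τ) := by
          rw [← Real.exp_nat_mul]
          push_cast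
          congr 1
          ring
  calc Real.exp (-(lam * (2 * thr - 2 ^ τ))) * Real.cosh lam ^ 2 ^ τ ≤
      Real.exp (-(lam * (2 * thr - 2 ^ τ))) * Real.exp (lam ^ 2 / 2 * 2 ^ τ) :=
        mul_le_mul_of_nonneg_left h5 (Real.exp_pos _).le
    _ = _ := by
        rw [← Real.exp_add]
        congr 1
        ring

open Classical in
/-- all parts and all advices -/
theorem all_parts (M : Alg) (A : Oracle) (m τ q thr : ℕ) {C : List (List Bool)}
    (hC : C.Nodup) (hC' : ∀ x : List Bool, x.length = m + τ → x ∈ C)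
    (β : List Bool → Bool) {lam : ℝ} (hl : 0 ≤ lam) :
    EX (fun _ => coin) C (fun β' => if Evt M m τ q thr β' A then (1 : ℝ) else 0) β ≤
      2 ^ (q + 1) * (2 ^ m * Real.exp (lam ^ 2 / 2 * 2 ^ τ - lam * (2 * thr - 2 ^ τ))) := by
  have h1 : EX (fun _ => coin) C (fun β' => if Evt M m τ q thr β' A then (1 : ℝ) else 0) β ≤
      EX (fun _ => coin) C (fun β' => ∑ w ∈ hs q, ∑ u : Fin m → Bool,
        if thr ≤ hits M A (tl τ β' w (List.ofFn u)) then (1 : ℝ) else 0) β := by
    refine EX_mono C β fun β' _ _ => ?_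
    have hnn : ∀ w ∈ hs q, (0 : ℝ) ≤ ∑ u : Fin m → Bool,
        if thr ≤ hits M A (tl τ β' w (List.ofFn u)) then (1 : ℝ) else 0 := fun w _ =>
      sum_nonneg fun u _ => by split_ifs <;> norm_num
    split_ifs with h2
    · obtain ⟨w, u, h3, h4, h5⟩ := h2
      subst h4
      refine le_trans ?_ (single_le_sum hnn (mem_hs h3))
      refine le_trans ?_ (single_le_sum (f := fun u' : Fin u.length → Bool =>
        if thr ≤ hits M A (tl τ β' w (List.ofFn u')) then (1 : ℝ) else 0)
        (fun u' _ => by split_ifs <;> norm_num) (mem_univ u.get))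
      simp only [List.ofFn_get]
      rw [if_pos h5]
    · exact sum_nonneg hnn
  refine h1.trans ?_
  rw [EX_sum]
  have h2 : ∀ w ∈ hs q, EX (fun _ => coin) C (fun β' => ∑ u : Fin m → Bool,
      if thr ≤ hits M A (tl τ β' w (List.ofFn u)) then (1 : ℝ) else 0) β ≤
      2 ^ m * Real.exp (lam ^ 2 / 2 * 2 ^ τ - lam * (2 * thr - 2 ^ τ)) := by
    intro w _
    rw [EX_sum]
    refine (sum_le_sum fun u _ => one_part M A τ thr w (List.ofFn u) hC
      (fun x hx => hC' x (by simpa using hx)) β hl).trans ?_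
    rw [sum_const, nsmul_eq_mul]
    simp
  refine (sum_le_sum h2).trans ?_
  rw [sum_const, nsmul_eq_mul]
  have h3 : (((hs q).card : ℕ) : ℝ) ≤ 2 ^ (q + 1) := by exact_mod_cast card_hs q
  exact mul_le_mul_of_nonneg_right h3 (by positivity)

open Classical in
/-- **The probability of the event.** -/
theorem prob_evt (hPQ : PQ P Q) (hc : KN h N) (O : Oracle) {M M' : Alg}
    (hM : ∀ (A : Oracle) (t : Tst), M'.out A (bits t) = some [true] ↔ t.1.length ≤ hits M A t.2)
    {m τ q thr T J : ℕ} (hT1 : 1 ≤ T) (hsT : m + τ ≤ T) (hJ : T ≤ (m + τ) ^ 2 ^ J)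
    (hY : ∀ β, ∀ y ∈ YY m τ q thr β, M'.p.eval y.length ≤ T)
    (hcut : ∀ β, ∀ y ∈ YY m τ q thr β, ∀ A : Oracle, M'.out (CC.cut T A) y = M'.out A y)
    {C : List (List Bool)} (hC : C.Nodup) (hC' : ∀ x : List Bool, x ∈ C ↔ x.length = m + τ)
    {lam : ℝ} (hl : 0 ≤ lam) (D : List Bool → Bool × (List Bool → Bool)) :
    EX (law1 hPQ) C (fun D' => if Evt M m τ q thr (fun x => (D' x).1)
      (orc N h O fun x => (D' x).2) then (1 : ℝ) else 0) D ≤
      C.length * del (ll (m + τ)) (LL J T : ℝ) +
      2 ^ (q + 1) * (2 ^ m * Real.exp (lam ^ 2 / 2 * 2 ^ τ - lam * (2 * thr - 2 ^ τ))) := by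
  set F : (List Bool → Bool × (List Bool → Bool)) → ℝ := fun D' =>
    if Evt M m τ q thr (fun x => (D' x).1) (orc N h O fun x => (D' x).2) then (1 : ℝ) else 0 with hF
  have hL1 : (1 : ℝ) ≤ (LL J T : ℝ) := by exact_mod_cast one_le_LL hT1
  have hdel : 0 ≤ del (ll (m + τ)) (LL J T : ℝ) := by
    unfold del
    have := sqrt2_pos
    positivity
  have h1 := hybrid (l := law1 hPQ) (l' := law2 hPQ) F (fun _ => del (ll (m + τ)) (LL J T : ℝ)) C hC
    (by
      intro x hx D'
      have hxl := (hC' x).1 hx
      rw [law1_E, abs_mul, abs_of_nonneg (by norm_num : (0 : ℝ) ≤ 1 / 2)]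
      set hh : Zs x.length → Bool := fun z => decide (Evt M m τ q thr
        (Function.update (fun x => (D' x).1) x true)
        (orc N h O (Function.update (fun x => (D' x).2) x (enc (ll x.length) z)))) with hhh
      have e1 : ∀ z, F (Function.update D' x (true, enc (ll x.length) z)) = br hh z := by
        intro z
        have e2 : (fun x' => (Function.update D' x (true, enc (ll x.length) z) x').1) =
            Function.update (fun x => (D' x).1) x true := by
          funext x'
          by_cases hx' : x' = x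
          · subst hx'
            simp
          · simp [Function.update_of_ne hx']
        have e3 : (fun x' => (Function.update D' x (true, enc (ll x.length) z) x').2) =
            Function.update (fun x => (D' x).2) x (enc (ll x.length) z) := by
          funext x'
          by_cases hx' : x' = x
          · subst hx'
            simp
          · simp [Function.update_of_ne hx']
        rw [hF]
        simp only
        rw [e2, e3]
        unfold br
        rw [hhh]
        simp only [decide_eq_true_eq]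
      simp only [e1]
      have h2 := hPQ.cl x.length hh (LL J T : ℝ) hL1 fun ρ => lv_evt hc O (fun x => (D' x).2) x
        (Y := YY m τ q thr (Function.update (fun x => (D' x).1) x true)) (M' := M')
        (hY _) (hcut _) hT1 (by rw [hxl]; exact hsT) (by rw [hxl]; exact hJ) (f := hh) (fun z => by
          rw [hhh]
          simp only [decide_eq_true_eq]
          exact evt_iff hM m τ q thr _ _) ρ
      have h3 : 0 ≤ |∑ a, P x.length a * br hh a - ∑ a, Q x.length a * br hh a| := abs_nonneg _
      have h4 : del (ll x.length) (LL J T : ℝ) = del (ll (m + τ)) (LL J T : ℝ) := by rw [hxl]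
      linarith) D
  have h2 : EX (law2 hPQ) C F D ≤ 2 ^ (q + 1) * (2 ^ m *
      Real.exp (lam ^ 2 / 2 * 2 ^ τ - lam * (2 * thr - 2 ^ τ))) := by
    have h3 := EX_prod (fun _ => coin) (lawW hPQ) (law2 hPQ) (law2_E hPQ) C F
      (fun x => (D x).1) (fun x => (D x).2)
    have h4 : (fun c => ((D c).1, (D c).2)) = D := rfl
    rw [h4] at h3
    rw [h3]
    refine EX_le _ _ fun ω' _ _ => ?_
    exact all_parts M (orc N h O ω') m τ q thr hC (fun x hx => (hC' x).2 hx) _ hl
  have h3 := (abs_le.1 h1).2
  rw [List.map_const', List.sum_replicate, nsmul_eq_mul] at h3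
  linarith

end Pool.Agent.H10x.BP
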