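import Pool.Agent.H10x.BP.Num

/-!
# The world
-/

set_option autoImplicit false
set_option linter.unusedSectionVars false

namespace Pool.Agent.H10x.BP

open Pool.Agent.NPC Pool.Agent.H622R2 Pool.Agent.H620R2.Gauge Pool.Agent.H622R2.Exp
  Pool.Agent.H9x.RT Pool.Agent.H9x.Q Finset H568R2 Pool.Agent.H676

/-- the hits of a part -/
theorem hits_tl (M : Alg) (A : Oracle) (τ : ℕ) (β : List Bool → Bool) (w u : List Bool) :
    hits M A (tl τ β w u) = (univ.filter fun v : Fin τ → Bool =>
      (decide (M.out A (pairBits w (u ++ List.ofFn v)) = some [true]) ==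
        β (u ++ List.ofFn v)) = true).card := by
  unfold hits tl vs
  rw [List.filter_map, List.filter_map, List.length_map, List.length_map]
  have h1 : ∀ (P : (Fin τ → Bool) → Bool), ((univ : Finset (Fin τ → Bool)).toList.filter P).length =
      (univ.filter fun v => P v = true).card := by
    intro P
    show _ = Multiset.card (Multiset.filter (fun v => P v = true) (univ : Finset (Fin τ → Bool)).val)
    rw [← coe_toList, Multiset.filter_coe, Multiset.coe_card]
    simp
  rw [h1]
  rfl

open Classical in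
/-- the count over all parts -/
theorem count_le {m τ n : ℕ} (hm : m + τ = n) (f : List Bool → Prop) (c : ℝ)
    (h : ∀ u : List Bool, u.length = m →
      (((univ.filter fun v : Fin τ → Bool => f (u ++ List.ofFn v)).card : ℕ) : ℝ) ≤ c) :
    (((univ.filter fun x : Fin n → Bool => f (List.ofFn x)).card : ℕ) : ℝ) ≤ 2 ^ m * c := by
  subst hm
  have h1 : (univ.filter fun x : Fin (m + τ) → Bool => f (List.ofFn x)).card =
      ∑ u : Fin m → Bool, (univ.filter fun v : Fin τ → Bool =>
        f (List.ofFn u ++ List.ofFn v)).card := by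
    simp only [card_filter]
    rw [← Fintype.sum_prod_type' (f := fun (u : Fin m → Bool) (v : Fin τ → Bool) =>
      if f (List.ofFn u ++ List.ofFn v) then 1 else 0)]
    refine (Fintype.sum_equiv (Fin.appendEquiv m τ) _ _ fun p => ?_).symm
    show _ = if f (List.ofFn (Fin.append p.1 p.2)) then 1 else 0
    rw [List.ofFn_fin_append]
  rw [h1]
  push_cast
  refine (sum_le_sum fun u _ => h (List.ofFn u) (by simp)).trans ?_
  rw [sum_const, nsmul_eq_mul]
  simp

/-- the bits of the event depend on few blocks -/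
theorem evt_loc {N : ℕ → Polynomial ℕ} {h : ℕ → Alg × Polynomial ℕ} (O : Oracle) {M M' : Alg}
    (hM : ∀ (A : Oracle) (t : Tst), M'.out A (bits t) = some [true] ↔ t.1.length ≤ hits M A t.2)
    {m τ q thr T : ℕ} (hsT : m + τ ≤ T)
    (hcut : ∀ β, ∀ y ∈ YY m τ q thr β, ∀ A : Oracle, M'.out (CC.cut T A) y = M'.out A y)
    {D D' : List Bool → Bool × (List Bool → Bool)} (hD : ∀ c ∈ hs T, D c = D' c) :
    Evt M m τ q thr (fun x => (D x).1) (orc N h O fun x => (D x).2) ↔
      Evt M m τ q thr (fun x => (D' x).1) (orc N h O fun x => (D' x).2) := by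
  have h1 : Evt M m τ q thr (fun x => (D x).1) (orc N h O fun x => (D x).2) ↔
      Evt M m τ q thr (fun x => (D' x).1) (orc N h O fun x => (D x).2) :=
    evt_congr fun x hx => by rw [hD x (mem_hs (by omega))]
  rw [h1, evt_iff hM, evt_iff hM]
  refine exists_congr fun y => and_congr_right fun hy => ?_
  rw [← hcut _ y hy, ← hcut _ y hy (orc N h O fun x => (D' x).2)]
  have h2 : CC.cut T (orc N h O fun x => (D x).2) = CC.cut T (orc N h O fun x => (D' x).2) :=
    cut_congr fun z hz => orc_loc O (n := T) (fun x hx => by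
      rw [hD x (mem_hs (by omega))]) z.length z rfl hz
  rw [h2]

/-- **The world.** -/
theorem world (O : Oracle) : ∃ A : Oracle, IsP A {x | O x = true} ∧
    (∀ L, IsPH A L → IsP A L) ∧
    ∃ L, IsBQP A L ∧ ∀ (B : Set (List Bool)) (adv : ℕ → List Bool) (q p : Polynomial ℕ),
      IsPH A B → (∀ n, (adv n).length ≤ q.eval n) →
      ∀ᶠ n in Filter.atTop,
        (({x : Fin n → Bool | List.ofFn x ∈ L ↔ pairBits (adv n) (List.ofFn x) ∈ B}.ncard : ℕ) : ℝ)
          ≤ (1 / 2 + 1 / (((p.eval n : ℕ) : ℝ) + 1)) * 2 ^ n := by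
  classical
  obtain ⟨P, Q, hPQ⟩ := exists_pq
  have hc1 := CC.poly_countable
  have hc2 : Nonempty Alg := by
    obtain ⟨M, _⟩ := IsFP.of_poly (A := O) (Poly.id (α := List Bool))
    exact ⟨M⟩
  obtain ⟨h, hh⟩ := exists_surjective_nat (Alg × Polynomial ℕ)
  obtain ⟨N, hc⟩ := exists_kn h
  obtain ⟨en, hen⟩ := exists_surjective_nat (Alg × Polynomial ℕ × Polynomial ℕ)
  choose te hte using fun j => exists_tester (en j).1
  choose T J hTJ using fun j => sizes (te j) (en j).2.1 (en j).2.2
  choose n₀ hn₀ using fun j => late (en j).2.1 (en j).2.2 (T j) (J j) j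
  set ev : ℕ × ℕ → (List Bool → Bool × (List Bool → Bool)) → Prop := fun i D =>
    n₀ i.1 ≤ i.2 ∧ Evt (en i.1).1 (i.2 - tt (en i.1).2.1 (en i.1).2.2 i.2)
      (tt (en i.1).2.1 (en i.1).2.2 i.2) ((en i.1).2.1.eval i.2) (th (en i.1).2.1 (en i.1).2.2 i.2)
      (fun x => (D x).1) (orc N h O fun x => (D x).2) with hev
  have hm : ∀ j n, n₀ j ≤ n → n - tt (en j).2.1 (en j).2.2 n + tt (en j).2.1 (en j).2.2 n = n :=
    fun j n hn => by
      have := (hn₀ j n hn).2.1
      omega
  obtain ⟨D, hD, hDev⟩ := exists_avoid (l := law1 hPQ) ev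
    (fun i => (1 : ℝ) / (2 ^ (i.1 + 2) * (((i.2 : ℝ) + 1) * ((i.2 : ℝ) + 2))))
    (fun i => hs ((T i.1).eval i.2)) (by
      rintro ⟨j, n⟩ D D' hDD
      refine and_congr_right fun hn => ?_
      obtain ⟨h1, h2, h3, h4⟩ := hTJ j n
      exact evt_loc O (hte j) (by rw [hm j n hn]; exact h2)
        (fun β y hy => (h4 _ (hm j n hn) β y hy).2) hDD)
    (fun i => vs i.2) (fun i => nodup_vs _) (by
      rintro ⟨j, n⟩ D
      by_cases hn : n₀ j ≤ n
      · have h0 := hn₀ j n hn
        obtain ⟨h1, h2, h3, h4⟩ := hTJ j n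
        have h5 := prob_evt hPQ hc O (hte j) (m := n - tt (en j).2.1 (en j).2.2 n)
          (τ := tt (en j).2.1 (en j).2.2 n) (q := (en j).2.1.eval n)
          (thr := th (en j).2.1 (en j).2.2 n) (T := (T j).eval n) (J := J j) h1
          (by rw [hm j n hn]; exact h2) (by rw [hm j n hn]; exact h3 h0.1)
          (fun β y hy => (h4 _ (hm j n hn) β y hy).1) (fun β y hy => (h4 _ (hm j n hn) β y hy).2)
          (C := vs n) (nodup_vs n) (fun x => by rw [hm j n hn]; exact mem_vs)
          (lam := 2 * (1 / ((((en j).2.2.eval n : ℕ) : ℝ) + 1))) (by positivity) D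
        rw [hm j n hn] at h5
        refine le_trans (le_of_eq ?_) (h5.trans (num_le h0 (hm j n hn)))
        congr 1
        funext D'
        rw [hev]
        simp only [hn, true_and]
      · refine (EX_le _ _ (r := 0) fun D' _ _ => ?_).trans ?_
        · rw [if_neg fun hcon => hn hcon.1]
        · simp only
          positivity)
    sum_b
  set fr : Con := fun x => (D x).2 with hfr
  refine ⟨orc N h O fr, p_of_given O fr, fun L hL => isP_of_isPH (fun L hL => p_of_np hh hc O fr hL)
    hL, LF fr, bqp_LF O fun x => (law1_supp hPQ (hD x)).2, fun B adv q p hB hadv => ?_⟩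
  obtain ⟨V, ⟨M, hM⟩, hV⟩ := isP_of_isPH (fun L hL => p_of_np hh hc O fr hL) hB
  obtain ⟨j, hj⟩ := hen (M, q, p)
  filter_upwards [Filter.eventually_ge_atTop (n₀ j)] with n hn
  have h1 : ¬ Evt M (n - tt q p n) (tt q p n) (q.eval n) (th q p n) (fun x => (D x).1)
      (orc N h O fr) := by
    intro hcon
    refine hDev (j, n) ⟨hn, ?_⟩
    simp only [hj]
    exact hcon
  have hmn : n - tt q p n + tt q p n = n := by
    have := hm j n hn
    rw [hj] at this
    exact this
  have hlab : ∀ x : List Bool, (x ∈ LF fr ↔ pairBits (adv n) x ∈ B) ↔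
      (decide (M.out (orc N h O fr) (pairBits (adv n) x) = some [true]) == (D x).1) = true := by
    intro x
    have h2 : x ∈ LF fr ↔ (D x).1 = true := (law1_supp hPQ (hD x)).1
    rw [h2, hV, hM]
    simp only [Option.some.injEq]
    by_cases h3 : V (pairBits (adv n) x) = [true]
    · simp [h3]
    · simp [h3]
  have h2 : (({x : Fin n → Bool | List.ofFn x ∈ LF fr ↔
      pairBits (adv n) (List.ofFn x) ∈ B}.ncard : ℕ) : ℝ) =
      (((univ.filter fun x : Fin n → Bool => (decide (M.out (orc N h O fr)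
        (pairBits (adv n) (List.ofFn x)) = some [true]) == (D (List.ofFn x)).1) = true).card : ℕ) :
          ℝ) := by
    simp only [hlab]
    rw [Set.ncard_eq_toFinset_card']
    congr 2
    ext x
    simp
  rw [h2]
  have h3 := count_le hmn (fun x => (decide (M.out (orc N h O fr)
    (pairBits (adv n) x) = some [true]) == (D x).1) = true)
    ((1 / 2 + 1 / (((p.eval n : ℕ) : ℝ) + 1)) * 2 ^ tt q p n) (fun u hu => by
      have h4 : hits M (orc N h O fr) (tl (tt q p n) (fun x => (D x).1) (adv n) u) < th q p n := by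
        by_contra hcon
        exact h1 ⟨adv n, u, hadv n, hu, not_lt.1 hcon⟩
      rw [hits_tl] at h4
      have h5 : (univ.filter fun v : Fin (tt q p n) → Bool => (decide (M.out (orc N h O fr)
          (pairBits (adv n) (u ++ List.ofFn v)) = some [true]) ==
          (D (u ++ List.ofFn v)).1) = true).card ≤
          ⌊(1 / 2 + 1 / (((p.eval n : ℕ) : ℝ) + 1)) * 2 ^ tt q p n⌋₊ := by
        unfold th at h4
        omega
      refine le_trans ?_ (Nat.floor_le (by positivity))
      exact_mod_cast (le_of_eq (by congr)).trans h5)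
  refine le_trans (le_of_eq ?_) (h3.trans (le_of_eq ?_))
  · congr
  · have h6 : (2 : ℝ) ^ n = 2 ^ (n - tt q p n) * 2 ^ tt q p n := by rw [← pow_add, hmn]
    rw [h6]
    ring

end Pool.Agent.H10x.BP
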