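import Mathlib

/-!
# Independent random choices
-/

set_option autoImplicit false

namespace Pool.Agent.H10x.BP

open Finset

/-- a finite distribution on `V` -/
structure Law (V : Type*) where
  /-- the outcomes -/
  Ω : Type
  fin : Fintype Ω
  /-- the weights -/
  w : Ω → ℝ
  /-- the values -/
  val : Ω → V
  nonneg : ∀ ω, 0 ≤ w ω
  sum_eq : ∑ ω, w ω = 1

attribute [instance] Law.fin

namespace Law

variable {V : Type*}

/-- the expectation -/
noncomputable def E (l : Law V) (φ : V → ℝ) : ℝ := ∑ ω, l.w ω * φ (l.val ω)

/-- the support -/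
def supp (l : Law V) : Set V := {v | ∃ ω, l.w ω ≠ 0 ∧ l.val ω = v}

theorem supp_finite (l : Law V) : l.supp.Finite := by
  refine (Set.finite_range l.val).subset ?_
  rintro v ⟨ω, _, rfl⟩
  exact ⟨ω, rfl⟩

theorem supp_nonempty (l : Law V) : l.supp.Nonempty := by
  by_contra hcon
  rw [Set.not_nonempty_iff_eq_empty] at hcon
  have h1 : ∀ ω, l.w ω = 0 := by
    intro ω
    by_contra h
    have : l.val ω ∈ l.supp := ⟨ω, h, rfl⟩
    rw [hcon] at this
    exact this
  have h2 := l.sum_eq
  simp [h1] at h2

theorem E_mono (l : Law V) {φ ψ : V → ℝ} (h : ∀ v ∈ l.supp, φ v ≤ ψ v) : l.E φ ≤ l.E ψ := by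
  refine sum_le_sum fun ω _ => ?_
  by_cases hω : l.w ω = 0
  · rw [hω, zero_mul, zero_mul]
  · exact mul_le_mul_of_nonneg_left (h _ ⟨ω, hω, rfl⟩) (l.nonneg ω)

theorem E_const (l : Law V) (r : ℝ) : l.E (fun _ => r) = r := by
  unfold E
  rw [← sum_mul, l.sum_eq, one_mul]

theorem E_sum (l : Law V) {ι : Type*} (s : Finset ι) (φ : ι → V → ℝ) :
    l.E (fun v => ∑ i ∈ s, φ i v) = ∑ i ∈ s, l.E (φ i) := by
  unfold E
  rw [sum_comm]
  exact sum_congr rfl fun ω _ => by rw [mul_sum]

theorem E_sub (l : Law V) (φ ψ : V → ℝ) :
    l.E (fun v => φ v - ψ v) = l.E φ - l.E ψ := by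
  unfold E
  rw [← sum_sub_distrib]
  exact sum_congr rfl fun ω _ => by ring

theorem E_mul (l : Law V) (r : ℝ) (φ : V → ℝ) : l.E (fun v => r * φ v) = r * l.E φ := by
  unfold E
  rw [mul_sum]
  exact sum_congr rfl fun ω _ => by ring

theorem E_comm {V' : Type*} (l : Law V) (l' : Law V') (φ : V → V' → ℝ) :
    l.E (fun v => l'.E fun v' => φ v v') = l'.E fun v' => l.E fun v => φ v v' := by
  unfold E
  simp only [mul_sum]
  rw [sum_comm]
  exact sum_congr rfl fun ω _ => sum_congr rfl fun ω' _ => by ring

end Law

variable {K V : Type*} [DecidableEq K]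

/-- the expectation over independent choices at the keys in a list -/
noncomputable def EX (l : K → Law V) : List K → ((K → V) → ℝ) → (K → V) → ℝ
  | [], F, D => F D
  | c :: C, F, D => (l c).E fun v => EX l C F (Function.update D c v)

variable {l l' : K → Law V}

theorem EX_mono : ∀ (C : List K) {F G : (K → V) → ℝ} (D : K → V),
    (∀ D' : K → V, (∀ c ∈ C, D' c ∈ (l c).supp) → (∀ c ∉ C, D' c = D c) → F D' ≤ G D') →
      EX l C F D ≤ EX l C G D
  | [], F, G, D, h => h D (fun c hc => absurd hc List.not_mem_nil) fun c _ => rfl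
  | c' :: C, F, G, D, h => by
    simp only [EX]
    refine (l c').E_mono fun v hv => EX_mono C _ fun D' h1 h2 => h D' ?_ ?_
    · intro c hc
      by_cases hc2 : c ∈ C
      · exact h1 c hc2
      · have h3 : c = c' := by
          rcases List.mem_cons.1 hc with h3 | h3
          · exact h3
          · exact absurd h3 hc2
        subst h3
        rw [h2 c hc2, Function.update_self]
        exact hv
    · intro c hc
      rw [h2 c fun h3 => hc (List.mem_cons_of_mem _ h3), Function.update_of_ne]
      exact fun h3 => hc (h3 ▸ List.mem_cons_self)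

theorem EX_const (r : ℝ) : ∀ (C : List K) (D : K → V), EX l C (fun _ => r) D = r
  | [], D => rfl
  | c :: C, D => by
    simp only [EX]
    have : (fun v => EX l C (fun _ => r) (Function.update D c v)) = fun _ => r := by
      funext v
      exact EX_const r C _
    rw [this, (l c).E_const]

theorem EX_le {F : (K → V) → ℝ} {r : ℝ} (C : List K) (D : K → V)
    (h : ∀ D' : K → V, (∀ c ∈ C, D' c ∈ (l c).supp) → (∀ c ∉ C, D' c = D c) → F D' ≤ r) :
    EX l C F D ≤ r :=
  (EX_mono (G := fun _ => r) C D h).trans (le_of_eq (EX_const r C D))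

theorem EX_sum {ι : Type*} (s : Finset ι) (F : ι → (K → V) → ℝ) : ∀ (C : List K) (D : K → V),
    EX l C (fun D' => ∑ i ∈ s, F i D') D = ∑ i ∈ s, EX l C (F i) D
  | [], D => rfl
  | c :: C, D => by
    simp only [EX]
    rw [← (l c).E_sum]
    congr 1
    funext v
    exact EX_sum s F C _

theorem EX_sub (F G : (K → V) → ℝ) : ∀ (C : List K) (D : K → V),
    EX l C (fun D' => F D' - G D') D = EX l C F D - EX l C G D
  | [], D => rfl
  | c :: C, D => by
    simp only [EX]
    rw [← (l c).E_sub]
    congr 1
    funext v
    exact EX_sub F G C _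

theorem EX_mul (r : ℝ) (F : (K → V) → ℝ) : ∀ (C : List K) (D : K → V),
    EX l C (fun D' => r * F D') D = r * EX l C F D
  | [], D => rfl
  | c :: C, D => by
    simp only [EX]
    rw [← (l c).E_mul]
    congr 1
    funext v
    exact EX_mul r F C _

theorem EX_E {V' : Type*} (m : Law V') (F : V' → (K → V) → ℝ) : ∀ (C : List K) (D : K → V),
    EX l C (fun D' => m.E fun v' => F v' D') D = m.E fun v' => EX l C (F v') D
  | [], D => rfl
  | c :: C, D => by
    simp only [EX]
    rw [← Law.E_comm]
    congr 1
    funext v
    exact EX_E m F C _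

theorem EX_append (C₁ : List K) (C₂ : List K) (F : (K → V) → ℝ) : ∀ D : K → V,
    EX l (C₁ ++ C₂) F D = EX l C₁ (fun D' => EX l C₂ F D') D := by
  induction C₁ with
  | nil => intro D; rfl
  | cons c C₁ ih =>
    intro D
    simp only [List.cons_append, EX]
    congr 1
    funext v
    exact ih _

/-- an update at another key -/
theorem EX_upd (F : (K → V) → ℝ) (c : K) (v : V) : ∀ (C : List K) (D : K → V), c ∉ C →
    EX l C F (Function.update D c v) = EX l C (fun D' => F (Function.update D' c v)) D
  | [], D, _ => rfl
  | c' :: C, D, h => by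
    simp only [EX]
    congr 1
    funext v'
    have hne : c ≠ c' := fun h' => h (h' ▸ List.mem_cons_self)
    rw [Function.update_comm hne, EX_upd F c v C _ fun h' => h (List.mem_cons_of_mem _ h')]

theorem EX_perm {C C' : List K} (h : C.Perm C') : ∀ (F : (K → V) → ℝ) (D : K → V), C.Nodup →
    EX l C F D = EX l C' F D := by
  induction h with
  | nil => intro F D _; rfl
  | cons c _ ih =>
    intro F D hn
    simp only [EX]
    congr 1
    funext v
    exact ih F _ (List.nodup_cons.1 hn).2
  | swap a b C =>
    intro F D hn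
    have hne : b ≠ a := fun h => (List.nodup_cons.1 hn).1 (h ▸ List.mem_cons_self)
    simp only [EX]
    rw [Law.E_comm]
    congr 1
    funext v
    congr 1
    funext v'
    rw [Function.update_comm hne]
  | trans h1 _ ih1 ih2 =>
    intro F D hn
    rw [ih1 F D hn, ih2 F D (h1.nodup_iff.1 hn)]

/-- **The hybrid argument.** -/
theorem hybrid (F : (K → V) → ℝ) (d : K → ℝ) : ∀ (C : List K), C.Nodup →
    (∀ c ∈ C, ∀ D : K → V, |(l c).E (fun v => F (Function.update D c v)) -
      (l' c).E (fun v => F (Function.update D c v))| ≤ d c) →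
    ∀ D : K → V, |EX l C F D - EX l' C F D| ≤ (C.map d).sum
  | [], _, _, D => by simp [EX]
  | c :: C, hn, h, D => by
    have hc : c ∉ C := (List.nodup_cons.1 hn).1
    have ih := hybrid F d C (List.nodup_cons.1 hn).2 fun c' hc' => h c' (List.mem_cons_of_mem _ hc')
    have h1 : |(l c).E (fun v => EX l C F (Function.update D c v)) -
        (l c).E (fun v => EX l' C F (Function.update D c v))| ≤ (C.map d).sum := by
      rw [← Law.E_sub, abs_le]
      constructor
      · rw [← (l c).E_const (-(C.map d).sum)]
        exact (l c).E_mono fun v _ => (abs_le.1 (ih _)).1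
      · rw [← (l c).E_const ((C.map d).sum)]
        exact (l c).E_mono fun v _ => (abs_le.1 (ih _)).2
    have h2 : |(l c).E (fun v => EX l' C F (Function.update D c v)) -
        (l' c).E (fun v => EX l' C F (Function.update D c v))| ≤ d c := by
      have e1 : ∀ m : Law V, m.E (fun v => EX l' C F (Function.update D c v)) =
          EX l' C (fun D' => m.E fun v => F (Function.update D' c v)) D := by
        intro m
        rw [EX_E m (fun v D' => F (Function.update D' c v))]
        congr 1
        funext v
        exact EX_upd F c v C D hc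
      rw [e1, e1, ← EX_sub, abs_le]
      constructor
      · rw [← EX_const (l := l') (-(d c)) C D]
        exact EX_mono C D fun D' _ _ => (abs_le.1 (h c List.mem_cons_self D')).1
      · exact EX_le C D fun D' _ _ => (abs_le.1 (h c List.mem_cons_self D')).2
    simp only [EX, List.map_cons, List.sum_cons]
    have h3 := abs_add_le ((l c).E (fun v => EX l C F (Function.update D c v)) -
        (l c).E (fun v => EX l' C F (Function.update D c v)))
        ((l c).E (fun v => EX l' C F (Function.update D c v)) -
        (l' c).E (fun v => EX l' C F (Function.update D c v)))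
    rw [sub_add_sub_cancel] at h3
    linarith

/-- a choice below the expectation -/
theorem exists_of_EX_lt {F : (K → V) → ℝ} {r : ℝ} (C : List K) (D : K → V)
    (h : EX l C F D < r) :
    ∃ D' : K → V, (∀ c ∈ C, D' c ∈ (l c).supp) ∧ (∀ c ∉ C, D' c = D c) ∧ F D' < r := by
  by_contra hcon
  push Not at hcon
  have h1 : EX l C (fun _ => r) D ≤ EX l C F D := EX_mono C D fun D' h1 h2 => hcon D' h1 h2
  rw [EX_const] at h1
  linarith

/-- independent bits and independent contents -/
theorem EX_prod {B W : Type*} (lb : K → Law B) (lw : K → Law W) (lp : K → Law (B × W))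
    (hlp : ∀ c φ, (lp c).E φ = (lw c).E fun w => (lb c).E fun b => φ (b, w)) :
    ∀ (C : List K) (F : (K → B × W) → ℝ) (β : K → B) (ω : K → W),
      EX lp C F (fun c => (β c, ω c)) =
        EX lw C (fun ω' => EX lb C (fun β' => F fun c => (β' c, ω' c)) β) ω
  | [], F, β, ω => rfl
  | c :: C, F, β, ω => by
    simp only [EX]
    rw [hlp]
    congr 1
    funext w
    rw [EX_E (lb c) (fun b ω' => EX lb C (fun β' => F fun c => (β' c, ω' c))
      (Function.update β c b))]
    congr 1
    funext b
    have h1 : Function.update (fun c => (β c, ω c)) c (b, w) =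
        fun c' => ((Function.update β c b) c', (Function.update ω c w) c') := by
      funext c'
      by_cases h : c' = c
      · subst h
        simp
      · simp [Function.update_of_ne h]
    rw [h1]
    exact EX_prod lb lw lp hlp C F _ _

/-- the expectation of a product -/
theorem EX_prod_le {g : K → V → ℝ} {r : ℝ} (hg : ∀ c v, 0 ≤ g c v) :
    ∀ (C : List K) (D : K → V), C.Nodup → (∀ c ∈ C, (l c).E (g c) ≤ r) → 0 ≤ r →
      EX l C (fun D' => (C.map fun c => g c (D' c)).prod) D ≤ r ^ C.length
  | [], D, _, _, _ => by simp [EX]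
  | c :: C, D, hn, h, hr => by
    simp only [EX, List.map_cons, List.prod_cons, List.length_cons]
    have hc : c ∉ C := (List.nodup_cons.1 hn).1
    have h1 : ∀ v, EX l C (fun D' => g c (D' c) * (C.map fun c => g c (D' c)).prod)
        (Function.update D c v) = g c v * EX l C (fun D' => (C.map fun c => g c (D' c)).prod)
          (Function.update D c v) := by
      intro v
      rw [← EX_mul]
      refine le_antisymm (EX_mono C _ fun D' _ h2 => ?_) (EX_mono C _ fun D' _ h2 => ?_)
      · rw [h2 c hc, Function.update_self]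
      · rw [h2 c hc, Function.update_self]
    have h2 : ∀ v, EX l C (fun D' => (C.map fun c => g c (D' c)).prod) (Function.update D c v) ≤
        r ^ C.length := fun v => EX_prod_le hg C _ (List.nodup_cons.1 hn).2
          (fun c' hc' => h c' (List.mem_cons_of_mem _ hc')) hr
    simp only [h1]
    have h3 : (l c).E (fun v => g c v * EX l C (fun D' => (C.map fun c => g c (D' c)).prod)
        (Function.update D c v)) ≤ (l c).E (fun v => r ^ C.length * g c v) :=
      (l c).E_mono fun v _ => by
        rw [mul_comm]
        exact mul_le_mul_of_nonneg_right (h2 v) (hg c v)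
    refine h3.trans ?_
    rw [Law.E_mul, pow_succ]
    exact mul_le_mul_of_nonneg_left (h c List.mem_cons_self) (pow_nonneg hr _)

end Pool.Agent.H10x.BP
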