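import Pool.Agent.H10x.BP.Ev

/-!
# Numbers
-/

set_option autoImplicit false
set_option linter.unusedSectionVars false

namespace Pool.Agent.H10x.BP

open Pool.Agent.NPC Pool.Agent.H622R2 Pool.Agent.H620R2.Gauge Pool.Agent.H622R2.Exp
  Pool.Agent.H9x.RT Finset H568R2 Pool.Agent.H676

/-- the lower bound for the size of a part -/
noncomputable def RR (q p : Polynomial ℕ) : Polynomial ℕ :=
  (p + Polynomial.C 1) ^ 2 * (q + Polynomial.C 3 * Polynomial.X + Polynomial.C 4)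

theorem RR_eval (q p : Polynomial ℕ) (n : ℕ) :
    (RR q p).eval n = (p.eval n + 1) ^ 2 * (q.eval n + 3 * n + 4) := by
  unfold RR
  simp only [Polynomial.eval_mul, Polynomial.eval_pow, Polynomial.eval_add, Polynomial.eval_C,
    Polynomial.eval_X]

theorem four_le_RR (q p : Polynomial ℕ) (n : ℕ) : 4 ≤ (RR q p).eval n := by
  rw [RR_eval]
  have h1 : 1 ≤ (p.eval n + 1) ^ 2 := Nat.one_le_pow _ _ (by omega)
  nlinarith

/-- the logarithm of the size of a part -/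
noncomputable def tt (q p : Polynomial ℕ) (n : ℕ) : ℕ := Nat.clog 2 ((RR q p).eval n)

theorem RR_le (q p : Polynomial ℕ) (n : ℕ) : (RR q p).eval n ≤ 2 ^ tt q p n :=
  Nat.le_pow_clog (by norm_num) _

theorem pow_tt_le (q p : Polynomial ℕ) (n : ℕ) : 2 ^ tt q p n ≤ 2 * (RR q p).eval n := by
  have h4 := four_le_RR q p n
  have h1 : 2 ^ (tt q p n).pred < (RR q p).eval n :=
    Nat.pow_pred_clog_lt_self (by norm_num) (by omega)
  have h2 : 0 < tt q p n := Nat.clog_pos (by norm_num) (by omega)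
  obtain ⟨t, ht⟩ : ∃ t, tt q p n = t + 1 := ⟨tt q p n - 1, by omega⟩
  rw [ht] at h1 ⊢
  rw [Nat.pred_succ] at h1
  rw [pow_succ]
  omega

/-- the threshold -/
noncomputable def th (q p : Polynomial ℕ) (n : ℕ) : ℕ :=
  ⌊(1 / 2 + 1 / (((p.eval n : ℕ) : ℝ) + 1)) * 2 ^ tt q p n⌋₊ + 1

theorem th_gt (q p : Polynomial ℕ) (n : ℕ) :
    (1 / 2 + 1 / (((p.eval n : ℕ) : ℝ) + 1)) * 2 ^ tt q p n < th q p n := by
  unfold th
  push_cast
  exact Nat.lt_floor_add_one _

theorem th_le (q p : Polynomial ℕ) (n : ℕ) : th q p n ≤ 2 * 2 ^ tt q p n := by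
  have h1 : (2 : ℝ) ≤ 2 ^ tt q p n := by
    have h2 : 2 ≤ 2 ^ tt q p n := by
      have := RR_le q p n
      have := four_le_RR q p n
      omega
    exact_mod_cast h2
  have h3 : 1 / (((p.eval n : ℕ) : ℝ) + 1) ≤ 1 := by
    rw [div_le_one (by positivity)]
    have : (0 : ℝ) ≤ ((p.eval n : ℕ) : ℝ) := by positivity
    linarith
  have h4 : (⌊(1 / 2 + 1 / (((p.eval n : ℕ) : ℝ) + 1)) * 2 ^ tt q p n⌋₊ : ℝ) ≤
      (1 / 2 + 1 / (((p.eval n : ℕ) : ℝ) + 1)) * 2 ^ tt q p n := Nat.floor_le (by positivity)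
  have h5 : (1 / 2 + 1 / (((p.eval n : ℕ) : ℝ) + 1)) * 2 ^ tt q p n ≤ 3 / 2 * 2 ^ tt q p n :=
    mul_le_mul_of_nonneg_right (by linarith) (by positivity)
  have h6 : ((th q p n : ℕ) : ℝ) ≤ 2 * 2 ^ tt q p n := by
    unfold th
    push_cast
    linarith
  exact_mod_cast h6

/-- the bound of the lengths of the inputs of the tester -/
noncomputable def WW (q p : Polynomial ℕ) : Polynomial ℕ :=
  Polynomial.C 2 * RR q p * (Polynomial.C 8 * q + Polynomial.C 4 * Polynomial.X +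
    Polynomial.C 14) + Polynomial.C 3

theorem length_YY {q p : Polynomial ℕ} {n m : ℕ} (hm : m + tt q p n = n) {β : List Bool → Bool}
    {y : List Bool} (hy : y ∈ YY m (tt q p n) (q.eval n) (th q p n) β) :
    y.length ≤ (WW q p).eval n := by
  obtain ⟨w, u, h1, h2, rfl⟩ := hy
  rw [bits_length, sz_pair, R2.sz_units, List.length_replicate]
  have h3 := sz_le_length_mul (tl (tt q p n) β w u) (8 * q.eval n + 4 * n + 9) (by
    intro a ha
    unfold tl at ha
    obtain ⟨v, hv, rfl⟩ := List.mem_map.1 ha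
    rw [sz_pair]
    have e1 := sz_listBool_le (pairBits w (u ++ v))
    have e2 := sz_bool_le (β (u ++ v))
    rw [length_pairBits, List.length_append, h2, mem_vs.1 hv] at e1
    omega)
  have h4 : (tl (tt q p n) β w u).length = 2 ^ tt q p n := by
    unfold tl
    rw [List.length_map, length_vs]
  rw [h4] at h3
  have h5 := th_le q p n
  have h6 := pow_tt_le q p n
  have h7 : (WW q p).eval n = 2 * (RR q p).eval n * (8 * q.eval n + 4 * n + 14) + 3 := by
    unfold WW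
    simp only [Polynomial.eval_mul, Polynomial.eval_add, Polynomial.eval_C, Polynomial.eval_X]
  rw [h7]
  have h8 := Nat.mul_le_mul_right (8 * q.eval n + 4 * n + 14) h6
  have h9 : 2 ^ tt q p n * (8 * q.eval n + 4 * n + 14) =
      2 ^ tt q p n * (8 * q.eval n + 4 * n + 9 + 1) + 4 * 2 ^ tt q p n := by ring
  omega

/-- **The sizes.** -/
theorem sizes (M' : Alg) (q p : Polynomial ℕ) : ∃ (T : Polynomial ℕ) (J : ℕ), ∀ n : ℕ,
    1 ≤ T.eval n ∧ n ≤ T.eval n ∧ (2 ≤ n → T.eval n ≤ n ^ 2 ^ J) ∧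
    ∀ m, m + tt q p n = n → ∀ β, ∀ y ∈ YY m (tt q p n) (q.eval n) (th q p n) β,
      M'.p.eval y.length ≤ T.eval n ∧
      ∀ A : Oracle, M'.out (CC.cut (T.eval n) A) y = M'.out A y := by
  obtain ⟨qb, hqb⟩ := M'.out_local
  set T : Polynomial ℕ := Polynomial.X + Polynomial.C 1 + M'.p.comp (WW q p) +
    qb.comp (WW q p) with hT
  have hTe : ∀ n, T.eval n = n + 1 + M'.p.eval ((WW q p).eval n) + qb.eval ((WW q p).eval n) := by
    intro n
    rw [hT]
    simp only [Polynomial.eval_add, Polynomial.eval_C, Polynomial.eval_X, Polynomial.eval_comp]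
  obtain ⟨D, _, hD⟩ := YAux.poly_bound T
  refine ⟨T, 2 * D, fun n => ⟨by rw [hTe]; omega, by rw [hTe]; omega, fun hn => ?_,
    fun m hm β y hy => ?_⟩⟩
  · refine (hD n).trans ?_
    have h1 : n + 2 ≤ n ^ 2 := by nlinarith
    calc (n + 2) ^ D ≤ (n ^ 2) ^ D := Nat.pow_le_pow_left h1 D
      _ = n ^ (2 * D) := by rw [pow_mul]
      _ ≤ n ^ 2 ^ (2 * D) := Nat.pow_le_pow_right (by omega) Nat.lt_two_pow_self.le
  · have h1 := length_YY hm hy
    constructor
    · have := eval_mono M'.p h1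
      rw [hTe]
      omega
    · intro A
      obtain ⟨Q, _, h2, h3⟩ := hqb A y
      refine h3 _ fun z hz => ?_
      unfold CC.cut
      rw [if_pos]
      have h4 := h2 z hz
      have h5 := eval_mono qb h1
      rw [hTe]
      omega

/-- the polynomial of the second level -/
noncomputable def LP (J : ℕ) (T : Polynomial ℕ) : Polynomial ℕ :=
  ((Polynomial.C 17 * T + Polynomial.C 83 + Polynomial.C J) ^ 2 + Polynomial.C 1) *
    (Polynomial.C 24 * (T * (Polynomial.C 17 * T + Polynomial.C 83 + Polynomial.C J))) ^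
      (2 * (J + 1))

theorem LP_eval (J : ℕ) (T : Polynomial ℕ) (n : ℕ) : (LP J T).eval n = LL J (T.eval n) := by
  unfold LP LL H9x.RT.kk
  simp only [Polynomial.eval_mul, Polynomial.eval_add, Polynomial.eval_C, Polynomial.eval_pow]

/-- the condition for large numbers -/
def Late (q p T : Polynomial ℕ) (J j n : ℕ) : Prop :=
  2 ≤ n ∧ tt q p n ≤ n ∧
    (107 * LL J (T.eval n) + 1) * (2 ^ (j + 2) * ((n + 1) * (n + 2))) ≤ 2 ^ n

theorem late (q p T : Polynomial ℕ) (J j : ℕ) : ∃ n₀, ∀ n, n₀ ≤ n → Late q p T J j n := by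
  rw [← Filter.eventually_atTop]
  have h1 := E0.poly_le (RR q p) 1
  have h2 := E0.poly_le ((Polynomial.C 107 * LP J T + Polynomial.C 1) *
    (Polynomial.C (2 ^ (j + 2)) * ((Polynomial.X + Polynomial.C 1) *
      (Polynomial.X + Polynomial.C 2)))) 1
  filter_upwards [h1, h2, Filter.eventually_ge_atTop 2] with n h1 h2 h3
  refine ⟨h3, ?_, ?_⟩
  · rw [one_mul] at h1
    exact Nat.clog_le_of_le_pow h1
  · simpa only [Polynomial.eval_mul, Polynomial.eval_add, Polynomial.eval_C, Polynomial.eval_X,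
      LP_eval, one_mul] using h2

theorem exp_neg_le (k : ℕ) : Real.exp (-(k : ℝ)) ≤ 1 / 2 ^ k := by
  have h1 : (2 : ℝ) ≤ Real.exp 1 := by
    have := Real.add_one_le_exp 1
    linarith
  rw [Real.exp_neg, ← one_div]
  refine one_div_le_one_div_of_le (by positivity) ?_
  calc (2 : ℝ) ^ k ≤ Real.exp 1 ^ k := pow_le_pow_left₀ (by norm_num) h1 k
    _ = Real.exp k := by
      rw [← Real.exp_nat_mul]
      simp

/-- the exponent -/
theorem exponent_le (q p : Polynomial ℕ) (n : ℕ) :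
    (2 * (1 / (((p.eval n : ℕ) : ℝ) + 1))) ^ 2 / 2 * 2 ^ tt q p n -
      2 * (1 / (((p.eval n : ℕ) : ℝ) + 1)) * (2 * th q p n - 2 ^ tt q p n) ≤
      -((q.eval n + 3 * n + 4 : ℕ) : ℝ) := by
  set δ : ℝ := 1 / (((p.eval n : ℕ) : ℝ) + 1) with hδ
  have hδ0 : 0 < δ := by positivity
  have h1 := th_gt q p n
  rw [← hδ] at h1
  have h2 : ((q.eval n + 3 * n + 4 : ℕ) : ℝ) ≤ δ ^ 2 * 2 ^ tt q p n := by
    have h3 : (((p.eval n + 1) ^ 2 * (q.eval n + 3 * n + 4) : ℕ) : ℝ) ≤ 2 ^ tt q p n := by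
      have := RR_le q p n
      rw [RR_eval] at this
      exact_mod_cast this
    have h4 : δ ^ 2 * (((p.eval n + 1) ^ 2 * (q.eval n + 3 * n + 4) : ℕ) : ℝ) =
        ((q.eval n + 3 * n + 4 : ℕ) : ℝ) := by
      rw [hδ]
      push_cast
      field_simp
    rw [← h4]
    exact mul_le_mul_of_nonneg_left h3 (by positivity)
  have h5 : 2 * δ * (2 * (δ * 2 ^ tt q p n)) ≤ 2 * δ * (2 * th q p n - 2 ^ tt q p n) := by
    refine mul_le_mul_of_nonneg_left ?_ (by positivity)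
    nlinarith
  have h6 : (0 : ℝ) ≤ ((q.eval n + 3 * n + 4 : ℕ) : ℝ) := by positivity
  nlinarith

/-- **The numbers are small.** -/
theorem num_le {q p T : Polynomial ℕ} {J j n m : ℕ} (hl : Late q p T J j n)
    (hm : m + tt q p n = n) :
    ((vs n).length : ℝ) * del (ll n) (LL J (T.eval n) : ℝ) +
      2 ^ (q.eval n + 1) * (2 ^ m * Real.exp ((2 * (1 / (((p.eval n : ℕ) : ℝ) + 1))) ^ 2 / 2 *
        2 ^ tt q p n - 2 * (1 / (((p.eval n : ℕ) : ℝ) + 1)) * (2 * th q p n - 2 ^ tt q p n))) ≤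
      1 / (2 ^ (j + 2) * ((n + 1) * (n + 2))) := by
  have h1 : ((vs n).length : ℝ) * del (ll n) (LL J (T.eval n) : ℝ) ≤
      107 * (LL J (T.eval n) : ℝ) / 4 ^ n := by
    rw [length_vs]
    push_cast
    refine (mul_le_mul_of_nonneg_left (del_le n (by positivity)) (by positivity)).trans
      (le_of_eq ?_)
    have h2 : (8 : ℝ) ^ n = 2 ^ n * 4 ^ n := by
      rw [← mul_pow]
      norm_num
    rw [h2]
    field_simp
  have h3 : (2 : ℝ) ^ (q.eval n + 1) * (2 ^ m * Real.exp ((2 * (1 / (((p.eval n : ℕ) : ℝ) + 1))) ^ 2 / 2 *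
        2 ^ tt q p n - 2 * (1 / (((p.eval n : ℕ) : ℝ) + 1)) * (2 * th q p n - 2 ^ tt q p n))) ≤
      1 / 4 ^ n := by
    have h4 := (Real.exp_le_exp.2 (exponent_le q p n)).trans (exp_neg_le _)
    have h5 : (2 : ℝ) ^ m ≤ 2 ^ n := pow_le_pow_right₀ (by norm_num) (by omega)
    calc (2 : ℝ) ^ (q.eval n + 1) * (2 ^ m * Real.exp ((2 * (1 / (((p.eval n : ℕ) : ℝ) + 1))) ^ 2 / 2 *
          2 ^ tt q p n - 2 * (1 / (((p.eval n : ℕ) : ℝ) + 1)) * (2 * th q p n - 2 ^ tt q p n))) ≤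
        2 ^ (q.eval n + 1) * (2 ^ n * (1 / 2 ^ (q.eval n + 3 * n + 4))) := by
          gcongr
      _ = 1 / (4 ^ n * 8) := by
          have h6 : (2 : ℝ) ^ (q.eval n + 3 * n + 4) =
              2 ^ (q.eval n + 1) * 2 ^ n * (4 ^ n * 8) := by
            have : (4 : ℝ) ^ n = 2 ^ (2 * n) := by rw [pow_mul]; norm_num
            rw [this, show (8 : ℝ) = 2 ^ 3 by norm_num, ← pow_add, ← pow_add, ← pow_add]
            congr 1
            ring
          rw [h6]
          field_simp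
      _ ≤ 1 / 4 ^ n := by
          refine one_div_le_one_div_of_le (by positivity) ?_
          have : (0 : ℝ) < 4 ^ n := by positivity
          linarith
  refine (add_le_add h1 h3).trans ?_
  rw [← add_div, div_le_div_iff₀ (by positivity) (by positivity), one_mul]
  have h7 : (((107 * LL J (T.eval n) + 1) * (2 ^ (j + 2) * ((n + 1) * (n + 2))) : ℕ) : ℝ) ≤
      ((2 ^ n : ℕ) : ℝ) := by exact_mod_cast hl.2.2
  push_cast at h7
  refine h7.trans ?_
  exact pow_le_pow_left₀ (by norm_num) (by norm_num) n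

/-- the bounds are summable -/
theorem sum_b (s : Finset (ℕ × ℕ)) :
    ∑ i ∈ s, (1 : ℝ) / (2 ^ (i.1 + 2) * (((i.2 : ℝ) + 1) * ((i.2 : ℝ) + 2))) < 1 := by
  classical
  obtain ⟨K, hK⟩ : ∃ K : ℕ, s ⊆ range K ×ˢ range K := by
    refine ⟨(s.sup fun i => i.1 + i.2) + 1, fun i hi => ?_⟩
    have := Finset.le_sup (f := fun i : ℕ × ℕ => i.1 + i.2) hi
    rw [mem_product, mem_range, mem_range]
    omega
  have h1 : ∑ i ∈ s, (1 : ℝ) / (2 ^ (i.1 + 2) * (((i.2 : ℝ) + 1) * ((i.2 : ℝ) + 2))) ≤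
      ∑ i ∈ range K ×ˢ range K,
        (1 : ℝ) / (2 ^ (i.1 + 2) * (((i.2 : ℝ) + 1) * ((i.2 : ℝ) + 2))) :=
    sum_le_sum_of_subset_of_nonneg hK fun i _ _ => by positivity
  have h2 : ∀ K : ℕ, ∑ j ∈ range K, (1 : ℝ) / 2 ^ (j + 2) = 1 / 2 - 1 / 2 ^ (K + 1) := by
    intro K
    induction K with
    | zero => norm_num
    | succ K ih =>
      rw [sum_range_succ, ih, pow_succ 2 (K + 1)]
      field_simp
      ring
  have h3 : ∀ K : ℕ, ∑ n ∈ range K, (1 : ℝ) / (((n : ℝ) + 1) * ((n : ℝ) + 2)) =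
      1 - 1 / ((K : ℝ) + 1) := by
    intro K
    induction K with
    | zero => norm_num
    | succ K ih =>
      rw [sum_range_succ, ih]
      push_cast
      field_simp
      ring
  have h4 : ∑ i ∈ range K ×ˢ range K,
      (1 : ℝ) / (2 ^ (i.1 + 2) * (((i.2 : ℝ) + 1) * ((i.2 : ℝ) + 2))) =
      (∑ j ∈ range K, (1 : ℝ) / 2 ^ (j + 2)) *
        ∑ n ∈ range K, (1 : ℝ) / (((n : ℝ) + 1) * ((n : ℝ) + 2)) := by
    rw [sum_mul_sum, ← sum_product']
    exact sum_congr rfl fun i _ => by rw [one_div_mul_one_div]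
  refine lt_of_le_of_lt h1 ?_
  rw [h4, h2, h3]
  have h5 : (0 : ℝ) < 1 / 2 ^ (K + 1) := by positivity
  have h6 : (0 : ℝ) ≤ 1 / ((K : ℝ) + 1) := by positivity
  have h7 : 1 / ((K : ℝ) + 1) ≤ 1 := by
    rw [div_le_one (by positivity)]
    have : (0 : ℝ) ≤ K := by positivity
    linarith
  nlinarith

end Pool.Agent.H10x.BP
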