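import Pool.Agent.H9x.RT.Up

/-!
# An oracle with free blocks above a given oracle, relative to which `P = PH`
-/

set_option autoImplicit false
set_option linter.unusedSectionVars false

namespace Pool.Agent.H10x.BP

open Pool.Agent.NPC Pool.Agent.H622R2 Pool.Agent.H620R2.Gauge Pool.Agent.H622R2.Exp
  Pool.Agent.TH678.ETH Pool.Agent.TH678.SETH Pool.Agent.TH678.RS Pool.Agent.H9x.RT
  Pool.Agent.H9x.Q

open Pool.Agent.H9x.V1 (poly_rep poly_cS)

/-- the contents of the blocks -/
abbrev Con : Type := List Bool → List Bool → Bool

/-- the bit of the blocks at an address -/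
def blk (fr : Con) (u : List Bool) : Bool :=
  fr ((u.drop (lead u + 1)).take (lead u)) (u.drop (2 * lead u + 1))

theorem blk_rep (fr : Con) (x r : List Bool) :
    blk fr (List.replicate x.length true ++ false :: (x ++ r)) = fr x r := by
  unfold blk
  rw [lead_rep]
  have h1 : List.replicate x.length true ++ false :: (x ++ r) =
      (List.replicate x.length true ++ [false]) ++ (x ++ r) := by simp
  have h2 : (List.replicate x.length true ++ [false]).length = x.length + 1 := by simp
  have h3 : (List.replicate x.length true ++ false :: (x ++ r)).drop (x.length + 1) = x ++ r := by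
    rw [h1, ← h2, List.drop_left]
  have h4 : (List.replicate x.length true ++ false :: (x ++ r)).drop (2 * x.length + 1) = r := by
    rw [show 2 * x.length + 1 = (x.length + 1) + x.length by omega, ← List.drop_drop, h3,
      List.drop_left]
  rw [h3, h4, List.take_left]

open Classical in
/-- the base oracle -/
noncomputable def base (O : Oracle) (fr : Con) : Oracle
  | false :: false :: false :: v => O v
  | false :: false :: v => decide (HZ v)
  | false :: true :: u => blk fr u
  | _ => false

/-- indices of codes -/
structure Ix (N : ℕ → Polynomial ℕ) : Type where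
  e : ℕ
  i : ℕ
  x : List Bool
  hi : (N e).eval x.length ^ 2 ≤ i

variable {N : ℕ → Polynomial ℕ} {h : ℕ → Alg × Polynomial ℕ}

/-- addresses of codes -/
def cI (p : Ix N) : List Bool := true :: cS p.e p.i p.x

theorem cI_inj : Function.Injective (cI : Ix N → List Bool) := by
  rintro ⟨e, i, x, hi⟩ ⟨e', i', x', hi'⟩ h
  simp only [cI, List.cons.injEq, true_and] at h
  obtain ⟨h1, h2, h3⟩ := cS_inj h
  subst h1
  subst h2
  subst h3
  rfl

variable (h) in
/-- the content of a code -/
def cont (p : Ix N) (A : Oracle) : Prop :=
  ∃ w : List Bool, w.length ≤ (h p.e).2.eval p.x.length ∧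
    (h p.e).1.out (CC.cut ((N p.e).eval p.x.length) A) (pairBits w p.x) = some [true]

variable (h) in
/-- the bounds -/
structure KN (N : ℕ → Polynomial ℕ) : Prop where
  hbig : ∀ (e : ℕ) (x w : List Bool), w.length ≤ (h e).2.eval x.length →
    (h e).1.p.eval (pairBits w x).length ≤ (N e).eval x.length
  hloc : ∀ (e : ℕ) (x w : List Bool) (A : Oracle), w.length ≤ (h e).2.eval x.length →
    (h e).1.out (CC.cut ((N e).eval x.length) A) (pairBits w x) = (h e).1.out A (pairBits w x)

variable (h) in
theorem exists_kn : ∃ N : ℕ → Polynomial ℕ, KN h N := by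
  obtain ⟨g, _⟩ := CC.exists_enum
  obtain ⟨S, N, hc⟩ := exists_kq g h
  exact ⟨N, hc.hbig, hc.hloc⟩

theorem lt_cI (p : Ix N) : (N p.e).eval p.x.length < (cI p).length := by
  obtain ⟨e, i, x, hi⟩ := p
  show (N e).eval x.length < (true :: cS e i x).length
  have h1 : (N e).eval x.length ≤ (N e).eval x.length ^ 2 := Nat.le_self_pow (by norm_num) _
  rw [List.length_cons, length_cS]
  omega

theorem cont_congr (p : Ix N) {A A' : Oracle}
    (hA : ∀ z : List Bool, z.length < (cI p).length → A z = A' z) :
    cont h p A ↔ cont h p A' := by
  unfold cont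
  rw [cut_congr fun z hz => hA z (lt_of_le_of_lt hz (lt_cI p))]

variable (h N) in
/-- the oracle -/
noncomputable def orc (O : Oracle) (fr : Con) : Oracle :=
  C1.Phi (cI : Ix N → List Bool) (cont h) (base O fr)

theorem orc_on (O : Oracle) (fr : Con) (p : Ix N) :
    orc N h O fr (cI p) = true ↔ cont h p (orc N h O fr) :=
  C1.Phi_code _ cI_inj _ _ (fun p _ _ hA => cont_congr p hA) p

theorem orc_off (O : Oracle) (fr : Con) {y : List Bool} (hy : ∀ p : Ix N, y ≠ cI p) :
    orc N h O fr y = base O fr y := C1.Phi_not _ _ _ _ hy

theorem orc_false (O : Oracle) (fr : Con) (y : List Bool) :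
    orc N h O fr (false :: y) = base O fr (false :: y) :=
  orc_off O fr fun p hp => by simp [cI] at hp

theorem blk_congr {fr fr' : Con} {n : ℕ} (hf : ∀ x : List Bool, x.length < n → fr x = fr' x)
    (u : List Bool) (hu : u.length < n) : blk fr u = blk fr' u := by
  unfold blk
  rw [hf]
  rw [List.length_take]
  have := lead_le u
  omega

/-- **Locality.** -/
theorem orc_loc (O : Oracle) {n : ℕ} {fr fr' : Con}
    (hf : ∀ x : List Bool, x.length < n → fr x = fr' x) :
    ∀ (m : ℕ) (q : List Bool), q.length = m → m ≤ n →
      orc N h O fr q = orc N h O fr' q := by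
  intro m
  induction m using Nat.strong_induction_on with
  | _ m ih =>
    intro q hq hqn
    by_cases hp : ∃ p : Ix N, q = cI p
    · obtain ⟨p, rfl⟩ := hp
      have hA : ∀ z : List Bool, z.length < (cI p).length →
          orc N h O fr z = orc N h O fr' z :=
        fun z hz => ih z.length (by omega) z rfl (by omega)
      rw [Bool.eq_iff_iff, orc_on, orc_on, cont_congr p hA]
    · push Not at hp
      rw [orc_off O fr hp, orc_off O fr' hp]
      rcases q with _ | ⟨c₁, _ | ⟨c₂, u⟩⟩
      · rfl
      · cases c₁ <;> rfl
      · cases c₁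
        · cases c₂
          · cases u with
            | nil => rfl
            | cons c₃ v => cases c₃ <;> rfl
          · show blk fr u = blk fr' u
            refine blk_congr hf u ?_
            rw [List.length_cons, List.length_cons] at hq
            omega
        · cases c₂ <;> rfl

/-- **The questions when one block is free.** -/
theorem adm (hc : KN h N) (O : Oracle) (fr : Con) (x₀ : List Bool) (T : ℕ) :
    Adm x₀.length T (fun z : (Fin (ll x₀.length) → Bool) ⊕ (Fin (ll x₀.length) → Bool) → Bool =>
      orc N h O (Function.update fr x₀ (enc (ll x₀.length) z))) := by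
  set F : ((Fin (ll x₀.length) → Bool) ⊕ (Fin (ll x₀.length) → Bool) → Bool) → Con :=
    fun z => Function.update fr x₀ (enc (ll x₀.length) z) with hF
  have hne : ∀ x ≠ x₀, ∀ z z', F z x = F z' x := fun x hx z z' => by
    rw [hF]
    simp only
    rw [Function.update_of_ne hx, Function.update_of_ne hx]
  have hlow : ∀ q : List Bool, q.length ≤ x₀.length → ∀ z z',
      orc N h O (F z) q = orc N h O (F z') q := fun q hq z z' =>
    orc_loc O (n := x₀.length) (fun x hx => hne x (by rintro rfl; omega) z z') _ q rfl hq
  set z₀ : (Fin (ll x₀.length) → Bool) ⊕ (Fin (ll x₀.length) → Bool) → Bool := fun _ => false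
  refine ⟨fun q hq => ⟨orc N h O (F z₀) q, fun z => hlow q hq z z₀⟩, fun q hqT => ?_⟩
  by_cases hp : ∃ p : Ix N, q = cI p
  · obtain ⟨p, rfl⟩ := hp
    right
    right
    refine ⟨{y | ∃ w : List Bool, w.length ≤ (h p.e).2.eval p.x.length ∧ y = pairBits w p.x},
      (h p.e).1, (N p.e).eval p.x.length, ?_, ?_, fun z => ?_⟩
    · show _ ≤ (true :: cS p.e p.i p.x).length
      rw [List.length_cons, length_cS]
      have := p.hi
      omega
    · rintro y ⟨w, hw, rfl⟩
      exact hc.hbig p.e p.x w hw
    · show orc N h O (F z) (cI p) = true ↔ _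
      rw [orc_on]
      constructor
      · rintro ⟨w, hw, hw'⟩
        exact ⟨_, ⟨w, hw, rfl⟩, hw'⟩
      · rintro ⟨_, ⟨w, hw, rfl⟩, hw'⟩
        exact ⟨w, hw, hw'⟩
  · push Not at hp
    have hoff : ∀ z, orc N h O (F z) q = base O (F z) q := fun z => orc_off _ _ hp
    rcases q with _ | ⟨c₁, _ | ⟨c₂, u⟩⟩
    · exact Or.inl ⟨false, fun z => by rw [hoff]; rfl⟩
    · exact Or.inl ⟨false, fun z => by rw [hoff]; cases c₁ <;> rfl⟩
    · cases c₁
      · cases c₂
        · exact Or.inl ⟨base O (F z₀) (false :: false :: u), fun z => by
            rw [hoff]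
            cases u with
            | nil => rfl
            | cons c₃ v => cases c₃ <;> rfl⟩
        · have hfr : ∀ z, orc N h O (F z) (false :: true :: u) = blk (F z) u :=
            fun z => by rw [hoff]; rfl
          by_cases hx : (u.drop (lead u + 1)).take (lead u) = x₀
          · rcases enc_cls (ll x₀.length) (u.drop (2 * lead u + 1)) with ⟨i, hi⟩ | h3
            · exact Or.inr (Or.inl ⟨i, fun z => by
                rw [hfr]
                unfold blk
                rw [hx, hF]
                simp only
                rw [Function.update_self, hi]⟩)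
            · exact Or.inl ⟨false, fun z => by
                rw [hfr]
                unfold blk
                rw [hx, hF]
                simp only
                rw [Function.update_self, h3]⟩
          · exact Or.inl ⟨blk (F z₀) u, fun z => by
              rw [hfr]
              unfold blk
              rw [hne _ hx z z₀]⟩
      · exact Or.inl ⟨false, fun z => by rw [hoff]; cases c₂ <;> rfl⟩

/-! ### Upper bounds -/

/-- the prefix of the strings about the zero string -/
theorem orc_HZ (O : Oracle) (fr : Con) {l k : ℕ} (hl : 1 ≤ l) (u : Fin (k * l) → Bool) :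
    orc N h O fr ((false :: false :: (List.replicate l true ++ [false])) ++ List.ofFn u) = true ↔
      ∃ j, cpy u j = fun _ => false := by
  have h1 : (false :: false :: (List.replicate l true ++ [false])) ++ List.ofFn u =
      false :: false :: (List.replicate l true ++ false :: List.ofFn u) := by simp
  obtain ⟨l, rfl⟩ : ∃ l', l = l' + 1 := ⟨l - 1, by omega⟩
  rw [h1, orc_false]
  show @decide (HZ (List.replicate (l + 1) true ++ false :: List.ofFn u))
    (Classical.propDecidable _) = true ↔ _
  exact (@decide_eq_true_iff _ (Classical.propDecidable _)).trans (HZ_iff hl u)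

/-- the language of the blocks -/
def LF (fr : Con) : Set (List Bool) := {x | Yes x.length (fr x)}

/-- **The language is in quantum polynomial time.** -/
theorem bqp_LF (O : Oracle) {fr : Con} (hD : ∀ x, Yes x.length (fr x) ∨ No x.length (fr x)) :
    IsBQP (orc N h O fr) (LF fr) := by
  have hlen : UPoly (fun u : List Bool => u.length) := UPoly.length Poly.id
  set l : Polynomial ℕ := Polynomial.C 8 * Polynomial.X + Polynomial.C 40 with hl
  have hll : ∀ n, l.eval n = ll n := fun n => by
    rw [hl, ll_eval, Polynomial.eval_X]
  refine isBQP_of_fo (fun u => false :: true :: (List.replicate u.length true ++ [false]))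
    (fun u => false :: false :: (List.replicate (l.eval u.length) true ++ [false])) l
    ?_ ?_ (fun u v huv => by simp only [huv]) (fun u v huv => by simp only [huv])
    (fun n => by rw [hll]; unfold ll; omega) (fun x k u => ?_) (fun x => ?_)
  · exact Poly.cons (NPC.Poly.const _) (Poly.cons (NPC.Poly.const _)
      (Poly.append (poly_rep hlen) (NPC.Poly.const [false])))
  · exact Poly.cons (NPC.Poly.const _) (Poly.cons (NPC.Poly.const _)
      (Poly.append (poly_rep (hlen.eval l)) (NPC.Poly.const [false])))
  · exact orc_HZ O fr (by rw [hll]; unfold ll; omega) u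
  · have hval : ∀ (c : Bool) (v : Fin (l.eval x.length) → Bool), orc N h O fr
        ((false :: true :: (List.replicate x.length true ++ [false])) ++ x ++ (c :: List.ofFn v)) =
        fr x (c :: List.ofFn v) := by
      intro c v
      have h1 : (false :: true :: (List.replicate x.length true ++ [false])) ++ x ++
          (c :: List.ofFn v) = false :: true :: (List.replicate x.length true ++ false ::
            (x ++ (c :: List.ofFn v))) := by simp
      rw [h1, orc_false]
      exact blk_rep _ _ _
    have hfo : FoA (orc N h O fr)
        ((false :: true :: (List.replicate x.length true ++ [false])) ++ x)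
        (l.eval x.length) = FoC (fr x) (l.eval x.length) := by
      unfold FoA FoC
      simp only [hval]
    constructor
    · intro hx
      rw [hfo, hll]
      exact hx
    · intro hx
      rw [hfo, hll]
      rcases hD x with h2 | h2
      · exact absurd h2 hx
      · exact h2

/-- **`NP` is in `P`.** -/
theorem p_of_np (hh : Function.Surjective h) (hc : KN h N) (O : Oracle) (fr : Con)
    {L : Set (List Bool)} (hL : IsNP (orc N h O fr) L) : IsP (orc N h O fr) L := by
  obtain ⟨V, p, ⟨M, hM⟩, hx⟩ := hL
  obtain ⟨e, he⟩ := hh (M, p)
  have hlen : UPoly (fun u : List Bool => u.length) := UPoly.length Poly.id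
  have h1 : Poly (fun x : List Bool => true :: cS e ((N e ^ 2).eval x.length) x) :=
    Poly.cons (NPC.Poly.const _) (poly_cS e (hlen.eval (N e ^ 2)) Poly.id)
  refine ⟨_, TH678.WP.isFP_ask' _ h1, fun x => ?_⟩
  simp only [List.cons.injEq, and_true]
  have h2 : (N e).eval x.length ^ 2 ≤ (N e ^ 2).eval x.length := by simp
  have h3 := orc_on (h := h) O fr (⟨e, _, x, h2⟩ : Ix N)
  rw [hx]
  refine Iff.trans ?_ h3.symm
  show _ ↔ ∃ w : List Bool, w.length ≤ (h e).2.eval x.length ∧
      (h e).1.out (CC.cut ((N e).eval x.length) (orc N h O fr)) (pairBits w x) = some [true]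
  refine exists_congr fun w => ?_
  rw [he]
  refine and_congr_right fun hw => ?_
  have h4 := hc.hloc e x w (orc N h O fr) (by rw [he]; exact hw)
  rw [he] at h4
  rw [h4, hM]
  simp

/-- the given oracle is decided in polynomial time -/
theorem p_of_given (O : Oracle) (fr : Con) : IsP (orc N h O fr) {x | O x = true} := by
  have h1 : Poly (fun x : List Bool => false :: false :: false :: x) :=
    Poly.cons (NPC.Poly.const _) (Poly.cons (NPC.Poly.const _) (Poly.cons (NPC.Poly.const _)
      Poly.id))
  refine ⟨_, TH678.WP.isFP_ask' _ h1, fun x => ?_⟩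
  simp only [List.cons.injEq, and_true]
  rw [orc_false]
  exact Iff.rfl

end Pool.Agent.H10x.BP
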